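import Pool.Agent.H.MP_216555_lc.q.QNCc

/-!
# Existence of a diagonally stable strong class (explicit)
-/

set_option linter.unusedSectionVars false

namespace MS216

open Finset

variable {V : Type} [Fintype V] [DecidableEq V] {m : ℕ} {P : PI V m} {K S : ℕ}

/-- As `diag_exists` in `DiagEx.lean`, with `j * phiQ K` instead of `sq K j` and the constant
budget `phiQ K`. -/
theorem diag_existsQ (hS : K * phiQ K + Lp K (K * phiQ K) + 4 ≤ S) (hE : P.EnvQ K S) :
    ∃ (B₀ : Finset V) (x₀ : V), B₀.card ≤ K * phiQ K ∧ x₀ ∉ P.Dcl B₀ ∧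
      P.Diag B₀ x₀ (phiQ K) := by
  have hK := hE.hK
  have hK1 : 1 ≤ K := by omega
  by_contra hcon
  push Not at hcon
  have key : ∀ j, j ≤ K → ∃ (B₀ : Finset V) (x₀ : V), B₀.card ≤ j * phiQ K ∧ x₀ ∉ P.Dcl B₀ ∧
      P.NC B₀ x₀ x₀ (j + 1) := by
    intro j
    induction j with
    | zero =>
      intro _
      obtain ⟨x₀, hx₀⟩ : ∃ x₀ : V, x₀ ∉ P.Dcl ∅ := by
        by_contra hall
        push Not at hall
        have h1 := hE.dcl_card (B := ∅) (by simp)
        have h2 : (fs (fun y => y ∈ P.Dcl (∅ : Finset V))) = Finset.univ := by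
          ext y
          simp [hall y]
        rw [h2, Finset.card_univ] at h1
        have h3 := hE.big
        have h4 : K ^ 1 ≤ K ^ (4 * S + 8) := Nat.pow_le_pow_right hK1 (by omega)
        simp only [Finset.card_empty, pow_zero, pow_one] at h1 h4
        omega
      exact ⟨∅, x₀, by simp, hx₀, hE.nc_one (by simp; omega) hx₀ hx₀⟩
    | succ j ih =>
      intro hj
      obtain ⟨B₀, x₀, hB₀, hx₀, hnc⟩ := ih (by omega)
      have hle : j * phiQ K ≤ K * phiQ K := Nat.mul_le_mul_right _ (by omega)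
      have hle' : (j + 1) * phiQ K ≤ K * phiQ K := Nat.mul_le_mul_right _ hj
      have hnd := hcon B₀ x₀ (hB₀.trans hle) hx₀
      unfold PI.Diag at hnd
      push Not at hnd
      obtain ⟨B, hBB, _, hcard, x, hx, hxB, y, z, y', z', hy, hz, hy', hz', hi, hi', ht, hnt⟩ := hnd
      have hBc : B.card ≤ (j + 1) * phiQ K := by
        rw [Nat.add_mul, Nat.one_mul]
        omega
      exact ⟨B, x, hBc, hxB, nc_splitQ hE hBB (by omega) hxB hxB hx hx hnc hy hy' hz hz' hi hi'
        ht hnt⟩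
  obtain ⟨B₀, x₀, hB₀, hx₀, hnc⟩ := key K le_rfl
  exact nc_boundQ (K * phiQ K) (by omega) hE hB₀ hx₀ hx₀ hnc

end MS216
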