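import Pool.Agent.H.MP_216555_lc.q.QNCc

/-!
# Representatives by colors
-/

set_option linter.unusedSectionVars false

namespace MS216

open Finset

variable {V : Type} [Fintype V] [DecidableEq V] {m : ℕ} {P : PI V m} {K S : ℕ}

/-- the state of the induction -/
private structure QColRep_St (P : PI V m) (b : Finset V) (w₀ y₀ : V) (k : ℕ) (R : Finset V)
    (e : V) (c : Fin k → V) : Prop where
  card : R.card ≤ k
  sub : ∀ r ∈ R, P.Sim b w₀ r
  he : P.Sim b w₀ e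
  ind : P.Ind2 (b ∪ R) e y₀
  cs : ∀ i, P.Sim b w₀ (c i) ∧ P.Ind2 b (c i) y₀
  ct : ∀ i j, i ≠ j → ¬ P.Tp b [c i, y₀] [c j, y₀]
  cov : ∀ i w', P.Sim (b ∪ R) e w' → w' ∉ P.Dcl (insert y₀ (b ∪ R)) →
    P.Tp b [c i, y₀] [w', y₀] → ∃ r ∈ R, P.Sim (insert y₀ b) w' r

private theorem QColRep_start (hE : P.EnvQ K S) {b : Finset V}
    (hb : b.card + K + 4 ≤ S) {w₀ y₀ : V} (hw : w₀ ∉ P.Dcl b) (hy : y₀ ∉ P.Dcl b) :
    ∃ (R : Finset V) (e : V) (c : Fin 0 → V), QColRep_St P b w₀ y₀ 0 R e c := by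
  have hE' := hE.toEnv
  have hc1 : (insert y₀ b).card ≤ b.card + 1 := Finset.card_insert_le _ _
  obtain ⟨e, he1, he2⟩ := hE'.exists_sim_notMem_dcl (B := b) (B' := insert y₀ b) (by omega)
    (by omega) hw
  refine ⟨∅, e, fun i => i.elim0, le_rfl, fun r hr => absurd hr (Finset.notMem_empty r), he1, ?_,
    fun i => i.elim0, fun i => i.elim0, fun i => i.elim0⟩
  rw [Finset.union_empty]
  exact hE'.ind2_symm (by omega) ⟨hy, he2⟩

private theorem QColRep_step (hE : P.EnvQ K S) {b : Finset V}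
    (hb : b.card + K + 4 ≤ S) {w₀ y₀ : V} (hSt : P.Stab b w₀ y₀) {k : ℕ} (hk : k ≤ K)
    {R : Finset V} {e : V} {c : Fin k → V} (h : QColRep_St P b w₀ y₀ k R e c)
    (hno : ¬ P.ColRep K b w₀ y₀ R e) :
    ∃ (R' : Finset V) (e' : V) (c' : Fin (k + 1) → V), QColRep_St P b w₀ y₀ (k + 1) R' e' c' := by
  have hE' := hE.toEnv
  have hm := hE'.hm
  have hRc := h.card
  have hc0 : (b ∪ R).card ≤ b.card + R.card := Finset.card_union_le _ _
  have hc1 : (insert y₀ b).card ≤ b.card + 1 := Finset.card_insert_le _ _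
  have hc2 : (insert y₀ (b ∪ R)).card ≤ (b ∪ R).card + 1 := Finset.card_insert_le _ _
  have hbm : b.card + 6 ≤ m := by omega
  have hym : (insert y₀ b).card + 6 ≤ m := by omega
  have hbRm : (b ∪ R).card + 6 ≤ m := by omega
  have hyb : insert y₀ b ⊆ insert y₀ (b ∪ R) :=
    Finset.insert_subset_insert _ Finset.subset_union_left
  obtain ⟨w, hw1, hw2, hw3⟩ : ∃ w, P.Sim (b ∪ R) e w ∧ w ∉ P.Dcl (insert y₀ (b ∪ R)) ∧
      ∀ r ∈ R, ¬ P.Sim (insert y₀ b) w r := by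
    by_contra hcon
    push Not at hcon
    exact hno ⟨hRc.trans hk, h.sub, h.he, h.ind.1, h.ind.2, fun w h1 h2 => hcon w h1 h2⟩
  have hwi : ∀ i, ¬ P.Tp b [c i, y₀] [w, y₀] := by
    intro i hi
    obtain ⟨r, hr, hr2⟩ := h.cov i w hw1 hw2 hi
    exact hw3 r hr hr2
  have hwy : w ∉ P.Dcl (insert y₀ b) := fun h1 => hw2 (PI.dcl_mono hyb h1)
  have hc3 : (insert w (insert y₀ (b ∪ R))).card ≤ (insert y₀ (b ∪ R)).card + 1 :=
    Finset.card_insert_le _ _
  obtain ⟨r, hr1, hr2⟩ := hE'.exists_sim_notMem_dcl (B := insert y₀ b)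
    (B' := insert w (insert y₀ (b ∪ R))) (by omega) (by omega) hwy
  have hU : b ∪ insert r R = insert r (b ∪ R) := Finset.union_insert _ _ _
  have hc4 : (insert r (b ∪ R)).card ≤ (b ∪ R).card + 1 := Finset.card_insert_le _ _
  have hUm : (b ∪ insert r R).card + 6 ≤ m := by rw [hU]; omega
  have hUS : (b ∪ insert r R).card + 2 ≤ S := by rw [hU]; omega
  have hbw : P.Sim b w₀ w :=
    h.he.trans hbm (hE'.sim_mono Finset.subset_union_left (by omega) h.ind.1 hw1)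
  have hbr : P.Sim b w₀ r :=
    hbw.trans hbm (hE'.sim_mono (Finset.subset_insert _ _) (by omega) hwy hr1)
  have hyR : y₀ ∉ P.Dcl (b ∪ R) := fun h1 =>
    h.ind.2 (PI.dcl_mono (Finset.subset_insert _ _) h1)
  have hi3 : P.Ind3 (b ∪ R) r w y₀ :=
    hE'.ind3_swap' (by omega) (hE'.ind3_rot (by omega) (⟨hyR, hw2, hr2⟩ : P.Ind3 (b ∪ R) y₀ w r))
  have hi2 : P.Ind2 (b ∪ insert r R) w y₀ := by
    rw [hU]
    exact ⟨hi3.2.1, hi3.2.2⟩
  have hyU : y₀ ∉ P.Dcl (b ∪ insert r R) := fun h1 =>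
    hi2.2 (PI.dcl_mono (Finset.subset_insert _ _) h1)
  have hRU : b ∪ R ⊆ b ∪ insert r R :=
    Finset.union_subset_union_right (Finset.subset_insert _ _)
  have hrU : insert r b ⊆ b ∪ insert r R := by
    rw [hU]
    exact Finset.insert_subset_insert _ Finset.subset_union_left
  have hc5 : (insert r b).card ≤ b.card + 1 := Finset.card_insert_le _ _
  refine ⟨insert r R, w, Fin.snoc c w, ?_, ?_, hbw, hi2, ?_, ?_, ?_⟩
  · exact (Finset.card_insert_le _ _).trans (Nat.add_le_add_right hRc 1)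
  · intro x hx
    rcases Finset.mem_insert.1 hx with rfl | h1
    · exact hbr
    · exact h.sub x h1
  · intro i
    refine Fin.lastCases ?_ (fun j => ?_) i
    · rw [Fin.snoc_last]
      exact ⟨hbw, PI.ind2_mono Finset.subset_union_left hi2⟩
    · rw [Fin.snoc_castSucc]
      exact h.cs j
  · intro i
    refine Fin.lastCases ?_ (fun i => ?_) i
    · intro j
      refine Fin.lastCases ?_ (fun j => ?_) j
      · intro hne
        exact absurd rfl hne
      · intro _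
        rw [Fin.snoc_last, Fin.snoc_castSucc]
        exact fun h1 => hwi j h1.symm
    · intro j
      refine Fin.lastCases ?_ (fun j => ?_) j
      · intro _
        rw [Fin.snoc_last, Fin.snoc_castSucc]
        exact hwi i
      · intro hne
        rw [Fin.snoc_castSucc, Fin.snoc_castSucc]
        exact h.ct i j fun h1 => hne (by rw [h1])
  · intro i
    have hdl : ∀ w', w' ∉ P.Dcl (insert y₀ (b ∪ insert r R)) →
        w' ∉ P.Dcl (insert y₀ (b ∪ R)) := fun w' h1 h2 =>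
      h1 (PI.dcl_mono (Finset.insert_subset_insert _ hRU) h2)
    refine Fin.lastCases ?_ (fun i => ?_) i
    · intro w' h1 h2 h3
      rw [Fin.snoc_last] at h3
      have h4 : P.Sim b w w' := hE'.sim_mono Finset.subset_union_left (by omega) hi2.1 h1
      have h5 : P.Sim (insert r b) w w' := hE'.sim_mono hrU (by omega) hi2.1 h1
      have h6 : P.Ind2 (b ∪ insert r R) w' y₀ := hE'.ind2_symm (by omega) ⟨hyU, h2⟩
      have h7 := hSt r (Or.inl hbr) w w' y₀ y₀ hbw (hbw.trans hbm h4) (PI.sim_refl hbm y₀)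
        (PI.sim_refl hbm y₀) h5 (PI.sim_refl (by omega) y₀) h3 (PI.ind2_mono hrU hi2)
        (PI.ind2_mono hrU h6)
      have h8 : P.Tp (insert y₀ b) [r, w] [r, w'] :=
        h7.mono rfl (by intro a b; simp [mem_pr]; grind)
      refine ⟨r, Finset.mem_insert_self _ _, ?_⟩
      exact PI.Sim.symm hym ((h8.sim_iff hym).1 (hr1.symm hym))
    · intro w' h1 h2 h3
      rw [Fin.snoc_castSucc] at h3
      have h4 : P.Sim (b ∪ R) w w' := hE'.sim_mono hRU (by omega) hi2.1 h1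
      obtain ⟨x, hx, hx2⟩ := h.cov i w' (hw1.trans hbRm h4) (hdl w' h2) h3
      exact ⟨x, Finset.mem_insert_of_mem hx, hx2⟩

/-- Sketch.  Suppose there is no `R, e` with `ColRep`.  By induction on `k ≤ K + 1` there are
`R, e` and `c : Fin k → V` with `|R| ≤ k`, `R ⊆ [w₀]_b`, `Sim b w₀ e`, `Ind2 (b ∪ R) e y₀`,
`Sim b w₀ (c i)`, `Ind2 b (c i) y₀`, `¬ Tp b [c i, y₀] [c j, y₀]` for `i ≠ j`, and `c i` is covered:
every `w'` with `Sim (b ∪ R) e w'`, `w' ∉ Dcl (insert y₀ (b ∪ R))`, `Tp b [c i, y₀] [w', y₀]` has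
some `r ∈ R` with `Sim (insert y₀ b) w' r`.
Start: `k = 0`, `R = ∅`, `e ∈ [w₀]_b` outside `Dcl (insert y₀ b)` (`exists_sim_notMem_dcl`,
`ind2_symm`).  Step (`k ≤ K`): `ColRep` fails, so there is `w` with `Sim (b ∪ R) e w`,
`w ∉ Dcl (insert y₀ (b ∪ R))` and `¬ Sim (insert y₀ b) w r` for all `r ∈ R`; so `(w, y₀)` is of none
of the types of the `(c i, y₀)`.  Choose `r` with `Sim (insert y₀ b) w r` and
`r ∉ Dcl (insert w (insert y₀ (b ∪ R)))`.  New `R' = insert r R`, `e' = w`, `c k = w`.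
`Sim b w₀ r` by `sim_mono`.  `Ind3 (b ∪ R) y₀ w r` (`y₀ ∉ Dcl (b ∪ R)` by `ind2_symm`), so
`Ind3 (b ∪ R) r w y₀`, i.e. `Ind2 (b ∪ R') w y₀`.  Old colors stay covered, as
`[w]_{b ∪ R'} ⊆ [e]_{b ∪ R}` (`sim_mono`).  The new one: for `w'` with `Sim (b ∪ R') w w'`,
`w' ∉ Dcl (insert y₀ (b ∪ R'))`, `Tp b [w,y₀] [w',y₀]`, `Stab b w₀ y₀` with `v = r` gives
`Tp (insert r b) [w,y₀] [w',y₀]`, so `Tp (insert y₀ b) [r,w] [r,w']`, so
`Sim (insert y₀ b) w' r` (`Tp.sim_iff`).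
`k = K + 1`: the pairs `(c i, y₀)` contradict `nc_boundQ` (`s = b.card`). -/
theorem colrep_exists (hE : P.EnvQ K S) {b : Finset V}
    (hb : b.card + Lp K b.card + K + 4 ≤ S) {w₀ y₀ : V} (hw : w₀ ∉ P.Dcl b)
    (hy : y₀ ∉ P.Dcl b) (hSt : P.Stab b w₀ y₀) :
    ∃ (R : Finset V) (e : V), P.ColRep K b w₀ y₀ R e := by
  by_contra hcon
  push Not at hcon
  have hE' := hE.toEnv
  have hm := hE'.hm
  have hb' : b.card + K + 4 ≤ S := by omega
  have key : ∀ k, k ≤ K + 1 →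
      ∃ (R : Finset V) (e : V) (c : Fin k → V), QColRep_St P b w₀ y₀ k R e c := by
    intro k
    induction k with
    | zero => exact fun _ => QColRep_start hE hb' hw hy
    | succ k ih =>
      intro hk
      obtain ⟨R, e, c, h⟩ := ih (by omega)
      exact QColRep_step hE hb' hSt (by omega) h (hcon R e)
  obtain ⟨R, e, c, h⟩ := key (K + 1) le_rfl
  refine nc_boundQ b.card (by omega) hE le_rfl hw hy ⟨fun i => (c i, y₀), fun i => ?_, fun i j hij => ?_⟩
  · exact ⟨(h.cs i).1, PI.sim_refl (by omega) y₀, (h.cs i).2⟩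
  · exact h.ct i j hij

end MS216
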