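import Pool.Agent.H.MP_216555_lc.Count

/-!
# Quantitative version: definitions
-/

set_option linter.unusedSectionVars false

namespace MS216

open Finset

variable {V : Type} [Fintype V] [DecidableEq V] {m : ℕ} (P : PI V m)

/-- The standing hypotheses of the quantitative version: `|V|` is doubly exponentially large. -/
structure PI.EnvQ (K S : ℕ) : Prop extends P.Env K S where
  hS : 8 ≤ S
  huge : K ^ K ^ (60 * S) ≤ Fintype.card V

/-- Representatives by colors: `R` has at most `K` points, and for `y₀` every point `w` of the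
strong class of `e` over `b ∪ R` (independent of `y₀`) is in the strong class over `insert y₀ b`
of a point of `R`. -/
structure PI.ColRep (K : ℕ) (b : Finset V) (w₀ y₀ : V) (R : Finset V) (e : V) : Prop where
  card : R.card ≤ K
  sub : ∀ r ∈ R, P.Sim b w₀ r
  he : P.Sim b w₀ e
  hed : e ∉ P.Dcl (b ∪ R)
  nd : y₀ ∉ P.Dcl (insert e (b ∪ R))
  rep : ∀ w, P.Sim (b ∪ R) e w → w ∉ P.Dcl (insert y₀ (b ∪ R)) →
    ∃ r ∈ R, P.Sim (insert y₀ b) w r

/-- Budget of extra points in diagonal stability. -/
def phiQ (K : ℕ) : ℕ := 2 * K + 1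

/-- The number of points that may be fixed. -/
def SQ (K : ℕ) : ℕ := K * phiQ K + phiQ K + Lp K (K * phiQ K + phiQ K) + 8

/-- From this level on the lower bound `K ^ m` sets in. -/
def MQ (K : ℕ) : ℕ := K ^ (62 * SQ K)

end MS216
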