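import Pool.Agent.H.MP_216555_lc.SimM
import Pool.Agent.H.MP_216555_lc.q.QDefs

/-!
# Reading lemmas (with representatives by colors)
-/

set_option linter.unusedSectionVars false

namespace MS216

open Finset

variable {V : Type} [Fintype V] [DecidableEq V] {m : ℕ} {P : PI V m} {K S : ℕ}

/-- A change of lists and base, reduced to a statement about pairs. -/
private theorem readQ_mv {B B' : Finset V} {l l' k k' : List V} (h : P.Tp B l l')
    (hl : k.length = k'.length)
    (hs : ∀ a b, ((a = b ∧ a ∈ B') ∨ (a, b) ∈ k.zip k') → ((a = b ∧ a ∈ B) ∨ (a, b) ∈ l.zip l')) :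
    P.Tp B' k k' := by
  refine PI.Tp.mono h hl ?_
  intro a b hab
  rw [mem_pr] at hab ⊢
  exact hs a b hab

private theorem readQ_card {b R : Finset V} : b.card ≤ (b ∪ R).card :=
  Finset.card_le_card Finset.subset_union_left

private theorem readQ_sub {b R : Finset V} {r : V} (hr : r ∈ R) : insert r b ⊆ b ∪ R := by
  intro x hx
  rw [Finset.mem_insert] at hx
  rw [Finset.mem_union]
  rcases hx with rfl | hx
  · exact Or.inr hr
  · exact Or.inl hx

private theorem readQ_sub2 {b R : Finset V} {e : V} : b ⊆ insert e (b ∪ R) :=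
  subset_union_left.trans (Finset.subset_insert _ _)

/-- Sketch (compare `rep_any` in `Read.lean`): extend `Tp (insert e (b ∪ R)) [y] [y₀]` by
`w ↦ w'`: `Tp (b ∪ R) [e,w] [e,w']`, so `Sim (b ∪ R) e w'`; `w' ∉ Dcl (insert y₀ (b ∪ R))` by
`dcl_insert` over `b ∪ R`; so `Sim (insert y₀ b) w' r` for some `r ∈ R` (`ColRep.rep`), and
`Tp b [y₀,w',r] [y,w,r]`, `Tp.sim_insert`. -/
theorem PI.Env.rep_anyQ (hE : P.Env K S) {b R : Finset V} (hb : (b ∪ R).card + 3 ≤ S)
    {w₀ y₀ e : V} (hR : P.ColRep K b w₀ y₀ R e) {y : V}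
    (hy : P.Sim (insert e (b ∪ R)) y₀ y) {w : V} (hw : P.Sim (b ∪ R) e w)
    (hwd : w ∉ P.Dcl (insert y (b ∪ R))) :
    ∃ r ∈ R, P.Sim (insert y b) w r := by
  have hm := hE.hm
  have hc := readQ_card (b := b) (R := R)
  have hbm : b.card + 6 ≤ m := by omega
  have hRm : (b ∪ R).card + 6 ≤ m := by omega
  obtain ⟨w', h1⟩ := hy.tp.symm.ext1 (by
    have := Finset.card_insert_le e (b ∪ R)
    simp only [List.length_cons, List.length_nil]
    omega) w
  have a1 : P.Tp (b ∪ R) [e, w] [e, w'] := by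
    refine readQ_mv h1 rfl ?_
    intro a c hab
    simp only [List.zip_cons_cons, List.zip_nil_right, List.mem_cons, List.not_mem_nil,
      Prod.mk.injEq, Finset.mem_insert, Finset.mem_union, or_false] at hab ⊢
    grind
  have a3 : P.Sim (b ∪ R) e w' := (a1.sim_iff hRm).1 hw
  have a4 : P.Tp (b ∪ R) [y, w] [y₀, w'] := by
    refine readQ_mv h1 rfl ?_
    intro a c hab
    simp only [List.zip_cons_cons, List.zip_nil_right, List.mem_cons, List.not_mem_nil,
      Prod.mk.injEq, Finset.mem_insert, Finset.mem_union, or_false] at hab ⊢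
    grind
  have a5 : w' ∉ P.Dcl (insert y₀ (b ∪ R)) := fun h => hwd ((PI.Tp.dcl_insert hRm a4).2 h)
  obtain ⟨r, hr, hs⟩ := hR.rep w' a3 a5
  have a6 : P.Tp b [y₀, w', r] [y, w, r] := by
    refine readQ_mv h1.symm rfl ?_
    intro a c hab
    simp only [List.zip_cons_cons, List.zip_nil_right, List.mem_cons, List.not_mem_nil,
      Prod.mk.injEq, Finset.mem_insert, Finset.mem_union, or_false] at hab ⊢
    grind
  exact ⟨r, hr, PI.Tp.sim_insert hbm a6 hs⟩

/-- Lemma R: the proof of `lemR` in `Read.lean` with `rep_anyQ`.  (`Sim b w₀ w` from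
`Sim (b ∪ R) e w`, `e ∉ Dcl (b ∪ R)`, `sim_mono`, `ColRep.he`; `Sim b y₀ y` by `sim_mono` from
`insert e (b ∪ R)`, `ColRep.nd`.) -/
theorem PI.Env.lemRQ (hE : P.Env K S) {b R : Finset V} (hb : (b ∪ R).card + 5 ≤ S)
    {w₀ y₀ e : V} (hS : P.Stab b w₀ y₀) (hR : P.ColRep K b w₀ y₀ R e)
    {w w' y z : V} (hw : P.Sim (b ∪ R) e w) (hw' : P.Sim (b ∪ R) e w')
    (hy : P.Sim (insert e (b ∪ R)) y₀ y) (hz : P.Sim (insert e (b ∪ R)) y₀ z)
    (hi : P.Ind3 (b ∪ R) w y z) (hi' : P.Ind3 (b ∪ R) w' y z)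
    (h1 : P.Tp b [w, y] [w', y]) (h2 : P.Tp b [w, z] [w', z]) :
    P.Tp b [w, y, z] [w', y, z] := by
  have hm := hE.hm
  have hbc := readQ_card (b := b) (R := R)
  have hbm : b.card + 6 ≤ m := by omega
  have hRm : (b ∪ R).card + 6 ≤ m := by omega
  have hec := Finset.card_insert_le e (b ∪ R)
  have hsw := hE.ind3_swap' (by omega) hi
  have hsw' := hE.ind3_swap' (by omega) hi'
  have hyb : insert y b ⊆ insert y (b ∪ R) := Finset.insert_subset_insert _ subset_union_left
  obtain ⟨r, hr, hwr⟩ := hE.rep_anyQ (by omega) hR hy hw hsw.2.1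
  have hrb : insert r b ⊆ b ∪ R := readQ_sub hr
  have hww : P.Sim (b ∪ R) w w' := PI.Sim.trans hRm (PI.Sim.symm hRm hw) hw'
  have hwX : P.Sim b w₀ w :=
    PI.Sim.trans hbm hR.he (hE.sim_mono subset_union_left (by omega) hR.hed hw)
  have hwX' : P.Sim b w₀ w' :=
    PI.Sim.trans hbm hR.he (hE.sim_mono subset_union_left (by omega) hR.hed hw')
  have hyX : P.Sim b y₀ y := hE.sim_mono readQ_sub2 (by omega) hR.nd hy
  have hzX : P.Sim b y₀ z := hE.sim_mono readQ_sub2 (by omega) hR.nd hz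
  have hrm : (insert r b).card + 6 ≤ m := by
    have := Finset.card_insert_le r b
    omega
  have hym : (insert y b).card + 6 ≤ m := by
    have := Finset.card_insert_le y b
    omega
  have t1 := hS r (Or.inl (hR.sub r hr)) w w' y y hwX hwX' hyX hyX
    (hE.sim_mono hrb (by omega) hi.1 hww) (PI.sim_refl hrm y) h1
    (PI.ind2_mono hrb ⟨hi.1, hi.2.1⟩) (PI.ind2_mono hrb ⟨hi'.1, hi'.2.1⟩)
  have t2 : P.Tp (insert y b) [w, r] [w', r] := by
    refine readQ_mv t1 rfl ?_
    intro a c hab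
    simp only [List.zip_cons_cons, List.zip_nil_right, List.mem_cons, List.not_mem_nil,
      Prod.mk.injEq, Finset.mem_insert, Finset.mem_union, or_false] at hab ⊢
    grind
  have s1 : P.Sim (insert y b) w' r := (t2.sim_iff hym).1 hwr
  have s2 : P.Sim (insert y b) w w' := PI.Sim.trans hym hwr (PI.Sim.symm hym s1)
  have t3 := hS y (Or.inr hyX) w w' z z hwX hwX' hzX hzX s2 (PI.sim_refl hym z) h2
    (PI.ind2_mono hyb ⟨hsw.2.1, hsw.2.2⟩) (PI.ind2_mono hyb ⟨hsw'.2.1, hsw'.2.2⟩)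
  refine readQ_mv t3 rfl ?_
  intro a c hab
  simp only [List.zip_cons_cons, List.zip_nil_right, List.mem_cons, List.not_mem_nil,
    Prod.mk.injEq, Finset.mem_insert, Finset.mem_union, or_false] at hab ⊢
  grind

/-- Lemma M: the proof of `lemM` in `Read.lean` with `lemRQ`. -/
theorem PI.Env.lemMQ (hE : P.Env K S) {b R : Finset V} (hb : (b ∪ R).card + 5 ≤ S)
    {w₀ y₀ e : V} (hS : P.Stab b w₀ y₀) (hR : P.ColRep K b w₀ y₀ R e)
    {w w' y z y' z' : V} (hw : P.Sim (b ∪ R) e w) (hw' : P.Sim (b ∪ R) e w')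
    (hy : P.Sim (insert e (b ∪ R)) y₀ y) (hz : P.Sim (insert e (b ∪ R)) y₀ z)
    (hy' : P.Sim (insert e (b ∪ R)) y₀ y') (hz' : P.Sim (insert e (b ∪ R)) y₀ z')
    (ht : P.Tp (insert e (b ∪ R)) [y, z] [y', z'])
    (hi : P.Ind3 (b ∪ R) w y z) (hi' : P.Ind3 (b ∪ R) w' y' z')
    (h1 : P.Tp b [w, y] [w', y']) (h2 : P.Tp b [w, z] [w', z']) :
    P.Tp b [w, y, z] [w', y', z'] := by
  have hm := hE.hm
  have hbc := readQ_card (b := b) (R := R)
  have hbm : b.card + 6 ≤ m := by omega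
  have hRm : (b ∪ R).card + 6 ≤ m := by omega
  obtain ⟨u, hu⟩ := ht.ext1 (by
    have := Finset.card_insert_le e (b ∪ R)
    simp only [List.length_cons, List.length_nil]
    omega) w
  have c1 : P.Tp (b ∪ R) [e, w] [e, u] := by
    refine readQ_mv hu rfl ?_
    intro a c hab
    simp only [List.zip_cons_cons, List.zip_nil_right, List.mem_cons, List.not_mem_nil,
      Prod.mk.injEq, Finset.mem_insert, Finset.mem_union, or_false] at hab ⊢
    grind
  have c2 : P.Sim (b ∪ R) e u := (c1.sim_iff hRm).1 hw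
  have c3 : P.Tp (b ∪ R) [w, y, z] [u, y', z'] := by
    refine readQ_mv hu rfl ?_
    intro a c hab
    simp only [List.zip_cons_cons, List.zip_nil_right, List.mem_cons, List.not_mem_nil,
      Prod.mk.injEq, Finset.mem_insert, Finset.mem_union, or_false] at hab ⊢
    grind
  have c4 : P.Ind3 (b ∪ R) u y' z' := c3.ind3 hRm hi
  have c5 : P.Tp b [w, y, z] [u, y', z'] := by
    refine readQ_mv c3 rfl ?_
    intro a c hab
    simp only [List.zip_cons_cons, List.zip_nil_right, List.mem_cons, List.not_mem_nil,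
      Prod.mk.injEq, Finset.mem_insert, Finset.mem_union, or_false] at hab ⊢
    grind
  have c6 : P.Tp b [w, y] [u, y'] := by
    refine readQ_mv c5 rfl ?_
    intro a c hab
    simp only [List.zip_cons_cons, List.zip_nil_right, List.mem_cons, List.not_mem_nil,
      Prod.mk.injEq, Finset.mem_insert, Finset.mem_union, or_false] at hab ⊢
    grind
  have c7 : P.Tp b [w, z] [u, z'] := by
    refine readQ_mv c5 rfl ?_
    intro a c hab
    simp only [List.zip_cons_cons, List.zip_nil_right, List.mem_cons, List.not_mem_nil,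
      Prod.mk.injEq, Finset.mem_insert, Finset.mem_union, or_false] at hab ⊢
    grind
  exact c5.trans (hE.lemRQ hb hS hR c2 hw' hy' hz' c4 hi' (c6.symm.trans h1)
    (c7.symm.trans h2))

end MS216
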