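import Pool.Agent.H.MP_216555_lc.q.QQR

/-!
# Many pairs of a given independent color (explicit)
-/

set_option linter.unusedSectionVars false

namespace MS216

open Finset Matrix

open Classical in
private theorem QPair_card {V : Type} [Fintype V] [DecidableEq V] (S T : Finset V)
    (R : V → V → Prop) :
    (prs S T R).card = ∑ a ∈ S, ∑ b ∈ T, if R a b then 1 else 0 := by
  unfold prs
  rw [Finset.card_filter, Finset.sum_product]

/-- the full classes contain many pairs of the color -/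
private theorem QPair_full {K S : ℕ} {V : Type} [Fintype V] [DecidableEq V]
    {m : ℕ} {P : PI V m} (hE : P.Env K S) {B : Finset V} (hB : B.card + 2 ≤ S)
    {y t : V} (hi : P.Ind2 B y t) :
    Fintype.card V * Fintype.card V ≤ K ^ S * K ^ S *
      (prs (fs (P.Sim B y)) (fs (P.Sim B t)) (fun a b => P.Tp B [y, t] [a, b])).card := by
  classical
  have hm : B.card + 6 ≤ m := by have := hE.hm; omega
  have hK1 : 0 < K := by have := hE.hK; omega
  have hins : ∀ v : V, (insert v B).card ≤ S := fun v =>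
    (Finset.card_insert_le v B).trans (by omega)
  have hpow : ∀ v : V, K ^ (insert v B).card ≤ K ^ S := fun v =>
    Nat.pow_le_pow_right hK1 (hins v)
  -- the second coordinates
  set T' : Finset V := fs (fun z => P.Sim B t z ∧ P.Tp (insert y B) [t] [z]) with hT'
  have h1 : Fintype.card V ≤ K ^ S * T'.card :=
    (hE.sim_tp_large (Finset.subset_insert y B) (hins y) hi.2).trans
      (Nat.mul_le_mul_right _ (hpow y))
  have h2 : ∀ b ∈ T', Fintype.card V ≤ K ^ S *
      ∑ a ∈ fs (P.Sim B y), (if P.Tp B [y, t] [a, b] then 1 else 0) := by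
    intro b hb
    rw [hT', mem_fs] at hb
    have h3 : P.Tp B [y, t] [y, b] := by
      have h := hb.2
      exact PI.Tp.mono (h) (by simp) (by intro a b hab; simp only [mem_pr, List.zip_cons_cons, List.zip_nil_right, List.mem_cons, List.not_mem_nil, Prod.mk.injEq, Finset.mem_insert, Finset.mem_union, Finset.mem_singleton, Finset.notMem_empty, or_false, and_false, false_or] at hab ⊢; grind)
    have h4 := hE.ind2_symm (by omega) (h3.ind2 hm hi)
    have h5 := hE.sim_tp_large (Finset.subset_insert b B) (hins b) h4.2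
    refine h5.trans (Nat.mul_le_mul (hpow b) ?_)
    rw [← Finset.card_filter]
    apply Finset.card_le_card
    intro z hz
    rw [mem_fs] at hz
    rw [Finset.mem_filter, mem_fs]
    refine ⟨hz.1, ?_⟩
    have h6 : P.Tp B [y, b] [z, b] := by
      have h := hz.2
      exact PI.Tp.mono (h) (by simp) (by intro a b hab; simp only [mem_pr, List.zip_cons_cons, List.zip_nil_right, List.mem_cons, List.not_mem_nil, Prod.mk.injEq, Finset.mem_insert, Finset.mem_union, Finset.mem_singleton, Finset.notMem_empty, or_false, and_false, false_or] at hab ⊢; grind)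
    exact h3.trans h6
  have h3 : Fintype.card V * T'.card ≤ K ^ S *
      (prs (fs (P.Sim B y)) (fs (P.Sim B t)) (fun a b => P.Tp B [y, t] [a, b])).card := by
    rw [QPair_card, Finset.sum_comm]
    have hsub : T' ⊆ fs (P.Sim B t) := by
      intro z hz
      rw [hT', mem_fs] at hz
      rw [mem_fs]
      exact hz.1
    calc Fintype.card V * T'.card = ∑ _b ∈ T', Fintype.card V := by
          rw [Finset.sum_const, smul_eq_mul, mul_comm]
      _ ≤ ∑ b ∈ T', K ^ S * ∑ a ∈ fs (P.Sim B y), (if P.Tp B [y, t] [a, b] then 1 else 0) :=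
          Finset.sum_le_sum h2
      _ = K ^ S * ∑ b ∈ T', ∑ a ∈ fs (P.Sim B y),
            (if P.Tp B [y, t] [a, b] then 1 else 0) := by rw [Finset.mul_sum]
      _ ≤ K ^ S * ∑ b ∈ fs (P.Sim B t), ∑ a ∈ fs (P.Sim B y),
            (if P.Tp B [y, t] [a, b] then 1 else 0) := by
          apply Nat.mul_le_mul_left
          exact Finset.sum_le_sum_of_subset hsub
  calc Fintype.card V * Fintype.card V ≤ Fintype.card V * (K ^ S * T'.card) :=
        Nat.mul_le_mul_left _ h1
    _ = K ^ S * (Fintype.card V * T'.card) := by ring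
    _ ≤ K ^ S * (K ^ S *
      (prs (fs (P.Sim B y)) (fs (P.Sim B t)) (fun a b => P.Tp B [y, t] [a, b])).card) :=
        Nat.mul_le_mul_left _ h3
    _ = _ := by ring

/-- The proof of `pair` in `Pair.lean` with `δ = 1/K^(d S)`, `d ≤ 10`, and `qrQ` with `a = 2d + 3`
(`1/K^((2d+3) S) ≤ δ²/(4 K^(2S))` as `4 ≤ K^S`).  Conclusion: at least `n²/K^((2d+3) S)` pairs. -/
theorem pairQ {V : Type} [Fintype V] [DecidableEq V] {m : ℕ} {P : PI V m} {K S : ℕ}
    (hE : P.EnvQ K S) (d : ℕ) (hd : d ≤ 10) {B : Finset V} (hB : B.card + 2 ≤ S) {y t : V}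
    (hi : P.Ind2 B y t) (S₁ T₁ : Finset V)
    (hS : ∀ a ∈ S₁, P.Sim B y a) (hT : ∀ b ∈ T₁, P.Sim B t b)
    (h1 : 1 / (K : ℝ) ^ (d * S) * Fintype.card V ≤ S₁.card)
    (h2 : 1 / (K : ℝ) ^ (d * S) * Fintype.card V ≤ T₁.card) :
    1 / (K : ℝ) ^ ((2 * d + 3) * S) * (Fintype.card V : ℝ) ^ 2 ≤
      (prs S₁ T₁ (fun a b => P.Tp B [y, t] [a, b])).card := by
  classical
  have hK : 2 ≤ K := hE.hK
  have hS8 : 8 ≤ S := hE.hS
  have hK2 : (2 : ℝ) ≤ K := by exact_mod_cast hK
  have hK0 : (0 : ℝ) < K := by linarith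
  set X : ℝ := (K : ℝ) ^ S with hX
  have hX4 : 4 ≤ X := by
    have e1 : (2 : ℝ) ^ 2 ≤ (K : ℝ) ^ 2 := by gcongr
    have e2 : (K : ℝ) ^ 2 ≤ (K : ℝ) ^ S := pow_le_pow_right₀ (by linarith) (by omega)
    rw [hX]
    linarith
  have hX0 : 0 < X := by linarith
  set Q : ℝ := (K : ℝ) ^ (2 * S) with hQ
  have hQX : Q = X ^ 2 := by
    rw [hQ, hX, ← pow_mul, mul_comm]
  have hQ0 : 0 < Q := by positivity
  set δ : ℝ := 1 / (K : ℝ) ^ (d * S) with hδd
  have hδ : 0 < δ := by positivity
  have hδX : δ = 1 / X ^ d := by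
    rw [hδd, hX, ← pow_mul, mul_comm d S]
  have hδ1 : δ ≤ 1 := by
    rw [hδd, div_le_one (by positivity)]
    exact one_le_pow₀ (by linarith)
  set ε : ℝ := 1 / (K : ℝ) ^ ((2 * d + 3) * S) with hεd
  have hε0 : 0 < ε := by positivity
  have hεX : ε = 1 / X ^ (2 * d + 3) := by
    rw [hεd, hX, ← pow_mul, mul_comm (2 * d + 3) S]
  have hεQ : ε * Q = δ ^ 2 / X := by
    rw [hεX, hQX, hδX]
    field_simp
    ring
  set n : ℝ := (Fintype.card V : ℝ) with hnn
  have hn0 : 0 < n := by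
    have h1 := hE.big
    have h2 : 0 < K ^ (4 * S + 8) := Nat.pow_pos (by omega)
    have h3 : 0 < Fintype.card V := by omega
    rw [hnn]
    exact_mod_cast h3
  have hcl : ∀ A : Finset V, (A.card : ℝ) ≤ n := by
    intro A
    rw [hnn]
    exact_mod_cast Finset.card_le_univ A
  -- the function
  set F : V → V → ℝ := fun a b => if P.Tp B [y, t] [a, b] then 1 else 0 with hF
  have hinv : P.InvF B F := by
    intro a b a' b' hab
    have h1 : P.Tp B [y, t] [a, b] ↔ P.Tp B [y, t] [a', b'] :=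
      ⟨fun h => h.trans hab, fun h => h.trans hab.symm⟩
    simp only [hF, h1]
  have hF1 : ∀ a b, |F a b| ≤ 1 := by
    intro a b
    simp only [hF]
    split_ifs <;> simp
  have htd : t ∉ P.Dcl B := fun h => hi.2 (PI.dcl_mono (Finset.subset_insert y B) h)
  obtain ⟨p, hp⟩ := qrQ hE (2 * d + 3) (by omega) (by omega) hinv hF1 hi.1 htd
  rw [← hεd, ← hnn] at hp
  have hsum : ∀ A C : Finset V, ∑ a ∈ A, ∑ b ∈ C, F a b =
      ((prs A C (fun a b => P.Tp B [y, t] [a, b])).card : ℝ) := by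
    intro A C
    rw [QPair_card]
    push_cast
    rfl
  -- the full classes
  have h3 := hp (fs (P.Sim B y)) (fs (P.Sim B t)) (fun a ha => mem_fs.1 ha)
    (fun b hb => mem_fs.1 hb)
  rw [hsum] at h3
  have h2' : n ^ 2 ≤ Q *
      ((prs (fs (P.Sim B y)) (fs (P.Sim B t)) (fun a b => P.Tp B [y, t] [a, b])).card : ℝ) := by
    have h3 := QPair_full hE.toEnv hB hi
    have h4 : (Fintype.card V : ℝ) * (Fintype.card V : ℝ) ≤ (K : ℝ) ^ S * (K : ℝ) ^ S *
        ((prs (fs (P.Sim B y)) (fs (P.Sim B t)) (fun a b => P.Tp B [y, t] [a, b])).card : ℝ) := by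
      exact_mod_cast h3
    rw [hQ, hnn, pow_two, two_mul, pow_add]
    exact h4
  have h3 := (abs_le.1 h3).2
  set s : ℝ := ((fs (P.Sim B y)).card : ℝ) with hs
  set u : ℝ := ((fs (P.Sim B t)).card : ℝ) with hu
  have hs0 : 0 ≤ s := by positivity
  have hu0 : 0 ≤ u := by positivity
  have hsn : s ≤ n := hcl _
  have hun : u ≤ n := hcl _
  have hδ2 : δ ^ 2 ≤ 1 := by nlinarith
  have hinvX : 1 / X ≤ 1 / 4 := one_div_le_one_div_of_le (by norm_num) hX4
  have hεQ4 : ε * Q ≤ 1 / 4 := by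
    rw [hεQ, div_le_iff₀ hX0]
    nlinarith
  have h4 : n ^ 2 * (1 - ε * Q) ≤ Q * (p * s * u) := by
    nlinarith [mul_le_mul_of_nonneg_left h3 hQ0.le]
  have hsu : s * u ≤ n ^ 2 := by nlinarith
  have hp1 : (1 - ε * Q) ≤ Q * p := by
    by_contra hcon
    push Not at hcon
    rcases le_or_gt (Q * p) 0 with hneg | hpos
    · have h5 : Q * (p * s * u) ≤ 0 := by
        have : Q * (p * s * u) = Q * p * (s * u) := by ring
        rw [this]
        exact mul_nonpos_of_nonpos_of_nonneg hneg (mul_nonneg hs0 hu0)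
      have h6 : 0 < n ^ 2 * (1 - ε * Q) := mul_pos (by positivity) (by linarith)
      linarith
    · have h5 : Q * (p * s * u) ≤ Q * p * n ^ 2 := by
        have : Q * (p * s * u) = Q * p * (s * u) := by ring
        rw [this]
        exact mul_le_mul_of_nonneg_left hsu hpos.le
      have h6 : Q * p * n ^ 2 < (1 - ε * Q) * n ^ 2 :=
        mul_lt_mul_of_pos_right hcon (by positivity)
      linarith
  -- the small sets
  have h5 := hp S₁ T₁ hS hT
  rw [hsum] at h5
  have h6 := (abs_le.1 h5).1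
  set c : ℝ := ((prs S₁ T₁ (fun a b => P.Tp B [y, t] [a, b])).card : ℝ) with hc
  set a : ℝ := (S₁.card : ℝ) with ha
  set b : ℝ := (T₁.card : ℝ) with hb
  have hab : δ ^ 2 * n ^ 2 ≤ a * b := by
    have : δ ^ 2 * n ^ 2 = (δ * n) * (δ * n) := by ring
    rw [this]
    exact mul_le_mul h1 h2 (by positivity) (by positivity)
  have hQp : 0 ≤ 1 - ε * Q := by linarith
  have h7 : (1 - ε * Q) * (δ ^ 2 * n ^ 2) ≤ Q * p * (a * b) :=
    mul_le_mul hp1 hab (by positivity) (hQp.trans hp1)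
  have h8 : Q * p * (a * b) ≤ Q * (c + ε * n ^ 2) := by
    have : Q * p * (a * b) = Q * (p * a * b) := by ring
    rw [this]
    apply mul_le_mul_of_nonneg_left _ hQ0.le
    linarith
  -- conclusion
  have hD0 : 0 ≤ δ ^ 2 * n ^ 2 := by positivity
  have h9 : ε * Q * n ^ 2 ≤ 1 / 4 * (δ ^ 2 * n ^ 2) := by
    have e1 : ε * Q * n ^ 2 = 1 / X * (δ ^ 2 * n ^ 2) := by
      rw [hεQ]
      ring
    rw [e1]
    exact mul_le_mul_of_nonneg_right hinvX hD0
  have h10 : (3 : ℝ) / 4 * (δ ^ 2 * n ^ 2) ≤ (1 - ε * Q) * (δ ^ 2 * n ^ 2) :=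
    mul_le_mul_of_nonneg_right (by linarith) hD0
  have h11 : Q * (ε * n ^ 2) ≤ Q * c := by
    have e1 : Q * (c + ε * n ^ 2) = Q * c + ε * Q * n ^ 2 := by ring
    have e2 : Q * (ε * n ^ 2) = ε * Q * n ^ 2 := by ring
    rw [e1] at h8
    rw [e2]
    linarith
  exact le_of_mul_le_mul_left h11 hQ0

end MS216
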