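import Pool.Agent.H.MP_216555_lc.q.QTqrB
import Pool.Agent.H.MP_216555_lc.q.QPair

/-!
# Triples, part C: many triples of a given independent type (explicit)
-/

set_option linter.unusedSectionVars false

namespace MS216

open Finset Matrix

variable {V : Type} [Fintype V] [DecidableEq V] {m : ℕ} {P : PI V m} {K S : ℕ}

/-- Counting triples over pairs. -/
private theorem QTqrC_count {V : Type} [Fintype V] [DecidableEq V] (S₁ S₂ S₃ : Finset V)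
    (R : V → V → V → Prop) (R' : V → V → Prop) :
    ∑ p ∈ prs S₂ S₃ R', (fs (fun w => w ∈ S₁ ∧ R w p.1 p.2)).card ≤ (trs S₁ S₂ S₃ R).card := by
  rw [← Finset.card_sigma]
  refine Finset.card_le_card_of_injOn (fun q => (q.2, q.1.1, q.1.2)) ?_ ?_
  · rintro ⟨⟨y, z⟩, w⟩ hq
    rw [Finset.mem_coe, Finset.mem_sigma] at hq
    obtain ⟨h1, h2⟩ := hq
    rw [mem_prs] at h1
    rw [mem_fs] at h2
    rw [Finset.mem_coe, mem_trs]
    exact ⟨h2.1, h1.1, h1.2.1, h2.2⟩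
  · rintro ⟨⟨y, z⟩, w⟩ _ ⟨⟨y', z'⟩, w'⟩ _ h
    simp only [Prod.mk.injEq] at h
    obtain ⟨rfl, rfl, rfl⟩ := h
    rfl

/-- The real inequality. -/
private theorem QTqrC_real {ι : Type} (Q Q' : Finset ι) (hQ : Q' ⊆ Q) (N : ι → ℝ) {τ n k : ℝ}
    (hn : 0 ≤ n) (hk : 4 ≤ k) (hτ : n / k ^ 2 ≤ τ)
    (h1 : 1 / k ^ 5 * n ^ 2 ≤ (Q'.card : ℝ)) (h2 : (Q'.card : ℝ) ≤ n ^ 2)
    (h3 : ∑ p ∈ Q, (N p - τ) ^ 2 ≤ 1 / k ^ 15 * n ^ 4) :
    1 / k ^ 8 * n ^ 3 ≤ ∑ p ∈ Q', N p := by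
  have hk0 : 0 < k := by linarith
  have e1 : ∑ p ∈ Q', (N p - τ) ^ 2 ≤ ∑ p ∈ Q, (N p - τ) ^ 2 :=
    Finset.sum_le_sum_of_subset_of_nonneg hQ fun _ _ _ => sq_nonneg _
  have e2 : (∑ p ∈ Q', (N p - τ)) ^ 2 ≤ (Q'.card : ℝ) * ∑ p ∈ Q', (N p - τ) ^ 2 :=
    sq_sum_le_card_mul_sum_sq
  have e0 : 1 / k ^ 15 ≤ (1 / (2 * k ^ 7)) ^ 2 := by
    rw [div_pow, one_pow, mul_pow, ← pow_mul]
    apply one_div_le_one_div_of_le (by positivity)
    have : (2 : ℝ) ^ 2 * k ^ (7 * 2) ≤ k * k ^ (7 * 2) := by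
      apply mul_le_mul_of_nonneg_right _ (by positivity)
      linarith
    refine this.trans (le_of_eq ?_)
    ring
  have e3 : (∑ p ∈ Q', (N p - τ)) ^ 2 ≤ (1 / (2 * k ^ 7) * n ^ 3) ^ 2 := by
    refine e2.trans ?_
    have e4 : (Q'.card : ℝ) * ∑ p ∈ Q', (N p - τ) ^ 2 ≤ n ^ 2 * (1 / k ^ 15 * n ^ 4) :=
      mul_le_mul h2 (e1.trans h3) (Finset.sum_nonneg fun _ _ => sq_nonneg _) (by positivity)
    refine e4.trans ?_
    have e5 : n ^ 2 * (1 / k ^ 15 * n ^ 4) ≤ n ^ 2 * ((1 / (2 * k ^ 7)) ^ 2 * n ^ 4) := by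
      gcongr
    refine e5.trans (le_of_eq ?_)
    ring
  have e5 : 0 ≤ 1 / (2 * k ^ 7) * n ^ 3 := by positivity
  have e6 := (abs_le_of_sq_le_sq' e3 e5).1
  rw [Finset.sum_sub_distrib, Finset.sum_const, nsmul_eq_mul] at e6
  have e7 : (n / k ^ 2) * (1 / k ^ 5 * n ^ 2) ≤ τ * (Q'.card : ℝ) :=
    mul_le_mul hτ h1 (by positivity) (le_trans (by positivity) hτ)
  have e8 : (n / k ^ 2) * (1 / k ^ 5 * n ^ 2) = 2 * (1 / (2 * k ^ 7) * n ^ 3) := by
    field_simp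
  rw [e8] at e7
  have e9 : 1 / k ^ 8 * n ^ 3 ≤ 1 / (2 * k ^ 7) * n ^ 3 := by
    apply mul_le_mul_of_nonneg_right _ (by positivity)
    apply one_div_le_one_div_of_le (by positivity)
    have : 2 * k ^ 7 ≤ k * k ^ 7 := by
      apply mul_le_mul_of_nonneg_right _ (by positivity)
      linarith
    refine this.trans (le_of_eq ?_)
    ring
  linarith

/-- As `tqr` in `TqrC.lean` with `δ = 1/K^S`: `τ ≥ n/K^(2S)`, `|Q'| ≥ n²/K^(5S)` (`pairQ`, `d = 1`),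
`τ |Q'| ≥ n³/K^(7S)`, and the error is at most `n · K^(-15S/2) n² ≤ n³/K^(7S) / 2`
(`K^(S/2) ≥ 2`; use `1/K^(15 S) ≤ (1/(2 K^(7S)))²`, i.e. `4 ≤ K^S`).  So at least
`n³/(2 K^(7S)) ≥ n³/K^(8S)` triples. -/
theorem tqrQ (hE : P.EnvQ K S) {B : Finset V} (hB : B.card + 4 ≤ S) {w₀ y₀ z₀ : V}
    (hy : P.Sim B w₀ y₀) (hz : P.Sim B w₀ z₀) (hi : P.Ind3 B w₀ y₀ z₀) (S₁ S₂ S₃ : Finset V)
    (h1 : ∀ a ∈ S₁, P.Sim B w₀ a) (h2 : ∀ a ∈ S₂, P.Sim B w₀ a) (h3 : ∀ a ∈ S₃, P.Sim B w₀ a)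
    (c1 : 1 / (K : ℝ) ^ S * Fintype.card V ≤ S₁.card)
    (c2 : 1 / (K : ℝ) ^ S * Fintype.card V ≤ S₂.card)
    (c3 : 1 / (K : ℝ) ^ S * Fintype.card V ≤ S₃.card) :
    1 / (K : ℝ) ^ (8 * S) * (Fintype.card V : ℝ) ^ 3 ≤
      (trs S₁ S₂ S₃ (fun w y z => P.Tp B [w₀, y₀, z₀] [w, y, z])).card := by
  have hK2 : (2 : ℝ) ≤ (K : ℝ) := by exact_mod_cast hE.hK
  have hk : (0 : ℝ) < (K : ℝ) := by linarith
  have hkS : (0 : ℝ) < (K : ℝ) ^ S := by positivity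
  have hk4 : (4 : ℝ) ≤ (K : ℝ) ^ S := by
    have a1 : (2 : ℝ) ^ 2 ≤ (K : ℝ) ^ 2 := by gcongr
    have a2 : (K : ℝ) ^ 2 ≤ (K : ℝ) ^ S := pow_le_pow_right₀ (by linarith) (by omega)
    linarith
  have hm : B.card + 6 ≤ m := by
    have := hE.hm
    omega
  obtain ⟨τ, hτ, hvar⟩ := tqr_varQ hE hB hy hz hi S₁ h1
  have hr := hE.toEnv.ind3_rot (by omega) hi
  have hpair := pairQ hE 1 (by norm_num) (B := B) (by omega) (y := y₀) (t := z₀) ⟨hr.1, hr.2.1⟩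
    S₂ S₃ (fun a ha => (PI.Sim.symm hm hy).trans hm (h2 a ha))
    (fun a ha => (PI.Sim.symm hm hz).trans hm (h3 a ha)) (by rw [one_mul]; exact c2)
    (by rw [one_mul]; exact c3)
  have hcnt := QTqrC_count S₁ S₂ S₃ (fun w y z => P.Tp B [w₀, y₀, z₀] [w, y, z])
    (fun a b => P.Tp B [y₀, z₀] [a, b])
  have hcnt' : ∑ p ∈ prs S₂ S₃ (fun a b => P.Tp B [y₀, z₀] [a, b]),
      ((fs (fun w => w ∈ S₁ ∧ P.Tp B [w₀, y₀, z₀] [w, p.1, p.2])).card : ℝ) ≤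
      ((trs S₁ S₂ S₃ (fun w y z => P.Tp B [w₀, y₀, z₀] [w, y, z])).card : ℝ) := by
    exact_mod_cast hcnt
  refine le_trans ?_ hcnt'
  have p5 : (K : ℝ) ^ ((2 * 1 + 3) * S) = ((K : ℝ) ^ S) ^ 5 := by
    rw [← pow_mul, mul_comm S]
  have p8 : (K : ℝ) ^ (8 * S) = ((K : ℝ) ^ S) ^ 8 := by rw [mul_comm, pow_mul]
  have p15 : (K : ℝ) ^ (15 * S) = ((K : ℝ) ^ S) ^ 15 := by rw [mul_comm, pow_mul]
  rw [p5] at hpair
  rw [p15] at hvar
  rw [p8]
  refine QTqrC_real (prs (fs (P.Sim B w₀)) (fs (P.Sim B w₀)) (fun y z => P.Tp B [y₀, z₀] [y, z]))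
    _ ?_ _ (Nat.cast_nonneg _) hk4 ?_ hpair ?_ hvar
  · rintro ⟨a, b⟩ hab
    rw [mem_prs] at hab ⊢
    exact ⟨mem_fs.2 (h2 a hab.1), mem_fs.2 (h3 b hab.2.1), hab.2.2⟩
  · refine le_trans (le_of_eq ?_) ((div_le_div_of_nonneg_right c1 hkS.le).trans hτ)
    field_simp
  · have h4 : (prs S₂ S₃ (fun a b => P.Tp B [y₀, z₀] [a, b])).card ≤ Fintype.card V ^ 2 := by
      unfold prs
      classical
      refine (Finset.card_filter_le _ _).trans ?_
      rw [Finset.card_product, pow_two]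
      exact Nat.mul_le_mul (Finset.card_le_univ _) (Finset.card_le_univ _)
    exact_mod_cast h4

/-- The triples which are not independent over `B'`. -/
private theorem QTqrC_ind (hE : P.Env K S) {B' : Finset V} (hB : B'.card + 4 ≤ S)
    (Q : Finset (V × V × V)) (hQ : ∀ a b c, (a, b, c) ∈ Q → ¬ P.Ind3 B' a b c) :
    Q.card ≤ 3 * K ^ S * Fintype.card V ^ 2 := by
  classical
  have hK : 1 ≤ K := by have := hE.hK; omega
  have h1 : Q ⊆ (fs (fun y => y ∈ P.Dcl B')) ×ˢ ((univ : Finset V) ×ˢ (univ : Finset V)) ∪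
      ((univ : Finset (V × V)).biUnion (fun p =>
        (fs (fun y => y ∈ P.Dcl (insert p.1 B'))).image fun b => (p.1, b, p.2)) ∪
      (univ : Finset (V × V)).biUnion (fun p =>
        (fs (fun y => y ∈ P.Dcl (insert p.2 (insert p.1 B')))).image fun c => (p.1, p.2, c))) := by
    rintro ⟨a, b, c⟩ hab
    rw [Finset.mem_union, Finset.mem_union]
    have h2 := hQ a b c hab
    by_cases h3 : a ∈ P.Dcl B'
    · left
      simp [h3]
    · by_cases h4 : b ∈ P.Dcl (insert a B')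
      · right
        left
        simp [h4]
      · right
        right
        have h5 : c ∈ P.Dcl (insert b (insert a B')) := by
          by_contra h5
          exact h2 ⟨h3, h4, h5⟩
        simp [h5]
  have h2 : (fs (fun y => y ∈ P.Dcl B')).card ≤ K ^ S :=
    (hE.dcl_card (by omega)).trans (Nat.pow_le_pow_right hK (by omega))
  have h3 : ∀ p : V × V, ((fs (fun y => y ∈ P.Dcl (insert p.1 B'))).image
      fun b => (p.1, b, p.2)).card ≤ K ^ S := by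
    intro p
    have h4 : (insert p.1 B').card ≤ S := (Finset.card_insert_le _ _).trans (by omega)
    exact Finset.card_image_le.trans
      ((hE.dcl_card h4).trans (Nat.pow_le_pow_right hK h4))
  have h4 : ∀ p : V × V, ((fs (fun y => y ∈ P.Dcl (insert p.2 (insert p.1 B')))).image
      fun c => (p.1, p.2, c)).card ≤ K ^ S := by
    intro p
    have h4 : (insert p.2 (insert p.1 B')).card ≤ S :=
      (Finset.card_insert_le _ _).trans (by
        have := Finset.card_insert_le p.1 B'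
        omega)
    exact Finset.card_image_le.trans
      ((hE.dcl_card h4).trans (Nat.pow_le_pow_right hK h4))
  calc Q.card ≤ _ := Finset.card_le_card h1
    _ ≤ _ := Finset.card_union_le _ _
    _ ≤ K ^ S * (Fintype.card V * Fintype.card V) +
        ((Fintype.card V * Fintype.card V) * K ^ S + (Fintype.card V * Fintype.card V) * K ^ S) := by
      refine Nat.add_le_add ?_ ((Finset.card_union_le _ _).trans (Nat.add_le_add ?_ ?_))
      · rw [Finset.card_product, Finset.card_product, Finset.card_univ]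
        exact Nat.mul_le_mul_right _ h2
      · refine Finset.card_biUnion_le.trans ((Finset.sum_le_card_nsmul _ _ _ fun a _ => h3 a).trans ?_)
        rw [Finset.card_univ, Fintype.card_prod, smul_eq_mul]
      · refine Finset.card_biUnion_le.trans ((Finset.sum_le_card_nsmul _ _ _ fun a _ => h4 a).trans ?_)
        rw [Finset.card_univ, Fintype.card_prod, smul_eq_mul]
    _ = 3 * K ^ S * Fintype.card V ^ 2 := by ring

/-- The triples which are not `Ind3 B'` are at most `3 K^S n²` (`dcl_card`). -/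
theorem tqr_indQ (hE : P.EnvQ K S) {B B' : Finset V} (hBB : B ⊆ B') (hB : B'.card + 4 ≤ S)
    {w₀ y₀ z₀ : V}
    (hy : P.Sim B w₀ y₀) (hz : P.Sim B w₀ z₀) (hi : P.Ind3 B w₀ y₀ z₀) (S₁ S₂ S₃ : Finset V)
    (h1 : ∀ a ∈ S₁, P.Sim B w₀ a) (h2 : ∀ a ∈ S₂, P.Sim B w₀ a) (h3 : ∀ a ∈ S₃, P.Sim B w₀ a)
    (c1 : 1 / (K : ℝ) ^ S * Fintype.card V ≤ S₁.card)
    (c2 : 1 / (K : ℝ) ^ S * Fintype.card V ≤ S₂.card)
    (c3 : 1 / (K : ℝ) ^ S * Fintype.card V ≤ S₃.card) :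
    ∃ a ∈ S₁, ∃ b ∈ S₂, ∃ c ∈ S₃, P.Tp B [w₀, y₀, z₀] [a, b, c] ∧ P.Ind3 B' a b c := by
  have hcard := Finset.card_le_card hBB
  have h4 := tqrQ hE (B := B) (by omega) hy hz hi S₁ S₂ S₃ h1 h2 h3 c1 c2 c3
  by_contra hcon
  push Not at hcon
  have h5 := QTqrC_ind hE.toEnv hB
    (trs S₁ S₂ S₃ (fun w y z => P.Tp B [w₀, y₀, z₀] [w, y, z])) (by
      intro a b c hab
      rw [mem_trs] at hab
      exact hcon a hab.1 b hab.2.1 c hab.2.2.1 hab.2.2.2)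
  have hK2 : (2 : ℝ) ≤ (K : ℝ) := by exact_mod_cast hE.hK
  have hK1 : (1 : ℝ) ≤ (K : ℝ) := by linarith
  have h6 : ((trs S₁ S₂ S₃ (fun w y z => P.Tp B [w₀, y₀, z₀] [w, y, z])).card : ℝ) ≤
      3 * (K : ℝ) ^ S * (Fintype.card V : ℝ) ^ 2 := by exact_mod_cast h5
  have h7 := h4.trans h6
  -- `n > 3 K^(9 S)`
  have h8 : 3 * (K : ℝ) ^ (9 * S) < Fintype.card V := by
    have e1 : 9 * S + 2 ≤ K ^ (60 * S) := by
      have e2 : 60 * S < 2 ^ (60 * S) := Nat.lt_two_pow_self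
      have e3 : 2 ^ (60 * S) ≤ K ^ (60 * S) := Nat.pow_le_pow_left hE.hK _
      have e4 := hE.hS
      omega
    have e5 : K ^ (9 * S + 2) ≤ Fintype.card V :=
      (Nat.pow_le_pow_right (by have := hE.hK; omega) e1).trans hE.huge
    have e6 : (K : ℝ) ^ (9 * S + 2) ≤ Fintype.card V := by exact_mod_cast e5
    have e7 : (K : ℝ) ^ (9 * S + 2) = (K : ℝ) ^ 2 * (K : ℝ) ^ (9 * S) := by rw [pow_add, mul_comm]
    have e8 : (0 : ℝ) < (K : ℝ) ^ (9 * S) := by positivity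
    have e9 : (4 : ℝ) ≤ (K : ℝ) ^ 2 := by nlinarith
    rw [e7] at e6
    nlinarith
  have hn0 : (0 : ℝ) < Fintype.card V := lt_of_le_of_lt (by positivity) h8
  have h9 : (Fintype.card V : ℝ) ^ 3 ≤ 3 * (K : ℝ) ^ (9 * S) * (Fintype.card V : ℝ) ^ 2 := by
    have e1 : (K : ℝ) ^ (9 * S) = (K : ℝ) ^ (8 * S) * (K : ℝ) ^ S := by
      rw [← pow_add]
      congr 1
      ring
    have e2 : (0 : ℝ) < (K : ℝ) ^ (8 * S) := by positivity
    have e3 := mul_le_mul_of_nonneg_left h7 e2.le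
    have e4 : (K : ℝ) ^ (8 * S) * (1 / (K : ℝ) ^ (8 * S) * (Fintype.card V : ℝ) ^ 3) =
        (Fintype.card V : ℝ) ^ 3 := by
      field_simp
    rw [e4] at e3
    rw [e1]
    linarith
  have h10 : 0 < (Fintype.card V : ℝ) ^ 2 := by positivity
  have h11 := mul_lt_mul_of_pos_right h8 h10
  have h12 : (Fintype.card V : ℝ) * (Fintype.card V : ℝ) ^ 2 = (Fintype.card V : ℝ) ^ 3 := by ring
  linarith

end MS216
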