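import Pool.Agent.H.MP_216555_lc.q.QPairInd

/-!
# Cyclic triples (explicit)
-/

set_option linter.unusedSectionVars false

namespace MS216

open Finset

variable {V : Type} [Fintype V] [DecidableEq V] {m : ℕ} {P : PI V m} {K S : ℕ}

open Classical in
private theorem QTri_rows {V : Type} [Fintype V] [DecidableEq V] (N X : Finset V)
    (R : V → V → Prop) (t : ℝ) (h : ∀ a ∈ N, ((X.filter fun b => R a b).card : ℝ) ≤ t) :
    ((prs N X R).card : ℝ) ≤ N.card * t := by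
  have h1 : (prs N X R).card = ∑ a ∈ N, (X.filter fun b => R a b).card := by
    unfold prs
    rw [Finset.card_filter, Finset.sum_product]
    refine Finset.sum_congr rfl fun a _ => ?_
    rw [Finset.card_filter]
  rw [h1, Nat.cast_sum]
  refine (Finset.sum_le_sum h).trans ?_
  rw [Finset.sum_const, nsmul_eq_mul]

open Classical in
private theorem QTri_cols {V : Type} [Fintype V] [DecidableEq V] (N X : Finset V)
    (R : V → V → Prop) (t : ℝ) (h : ∀ a ∈ N, ((X.filter fun b => R b a).card : ℝ) ≤ t) :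
    ((prs X N R).card : ℝ) ≤ N.card * t := by
  have h1 : (prs X N R).card = ∑ a ∈ N, (X.filter fun b => R b a).card := by
    unfold prs
    rw [Finset.card_filter, Finset.sum_product_right]
    refine Finset.sum_congr rfl fun a _ => ?_
    rw [Finset.card_filter]
  rw [h1, Nat.cast_sum]
  refine (Finset.sum_le_sum h).trans ?_
  rw [Finset.sum_const, nsmul_eq_mul]

/-- As `tri` in `Tri.lean`, with `δ = 1/K^S`: the bad sets `N₁`, `N₂` have less than `n/K^(2S)`
points (`pairQ`, `d = 2`: otherwise `≥ n²/K^(7S)` pairs), good means at least `n/K^(8S)` partners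
(`|N| n/K^(8S) < n²/K^(7S)`), then `pair_indQ` with `d = 8`.  (`2/K^(2S) + K^S/n < 1/K^S`.) -/
theorem triQ (hE : P.EnvQ K S) {B d : Finset V} (hBd : B ⊆ d) (hd : d.card + 4 ≤ S) {y z : V}
    (hyz : P.Sim B y z) (hi : P.Ind2 B y z) (X : Finset V) (hX : ∀ x ∈ X, P.Sim B y x)
    (c1 : 1 / (K : ℝ) ^ S * Fintype.card V ≤ X.card) :
    ∃ a ∈ X, ∃ b ∈ X, ∃ c ∈ X, P.Tp B [y, z] [a, b] ∧ P.Tp B [y, z] [b, c] ∧
      P.Tp B [y, z] [c, a] ∧ P.Ind3 d a b c := by
  classical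
  have hK := hE.hK
  have hK0 : (0 : ℝ) < K := by exact_mod_cast (by omega : 0 < K)
  have hK1 : (1 : ℝ) ≤ K := by exact_mod_cast (by omega : 1 ≤ K)
  have hK2 : (2 : ℝ) ≤ K := by exact_mod_cast hK
  have hS8 := hE.hS
  have hBc : B.card ≤ d.card := Finset.card_le_card hBd
  have hBm : B.card + 6 ≤ m := by have := hE.hm; omega
  obtain ⟨n, hn'⟩ : ∃ n : ℝ, n = Fintype.card V := ⟨_, rfl⟩
  obtain ⟨q, hq⟩ : ∃ q : ℝ, q = (K : ℝ) ^ S := ⟨_, rfl⟩
  have hpow : ∀ j : ℕ, (K : ℝ) ^ (j * S) = q ^ j := by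
    intro j
    rw [hq, ← pow_mul, mul_comm]
  have hq3 : 4 ≤ q := by
    have h1 : (2 : ℝ) ^ 2 ≤ 2 ^ S := pow_le_pow_right₀ (by norm_num) (by omega)
    have h2 : (2 : ℝ) ^ S ≤ (K : ℝ) ^ S := pow_le_pow_left₀ (by norm_num) hK2 S
    rw [hq]
    linarith
  have hq0 : 0 < q := by linarith
  have hnq : 2 * q ^ 3 ≤ n := by
    have h1 : 60 * S < K ^ (60 * S) := Nat.lt_pow_self (by omega)
    have h2 : K ^ (3 * S + 1) ≤ Fintype.card V :=
      (Nat.pow_le_pow_right (by omega) (by omega)).trans hE.huge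
    have h3 : ((K : ℝ)) ^ (3 * S + 1) ≤ n := by
      rw [hn']
      exact_mod_cast h2
    rw [pow_succ, hpow] at h3
    nlinarith [pow_pos hq0 3]
  have hn0 : 0 < n := lt_of_lt_of_le (by positivity) hnq
  have H1 : ∀ S₁ T₁ : Finset V, (∀ a ∈ S₁, P.Sim B y a) → (∀ b ∈ T₁, P.Sim B z b) →
      n / q ^ 2 ≤ S₁.card → n / q ^ 2 ≤ T₁.card →
      n ^ 2 / q ^ 7 ≤ (prs S₁ T₁ (fun a b => P.Tp B [y, z] [a, b])).card := by
    intro S₁ T₁ h1 h2 h3 h4
    have h5 := pairQ hE 2 (by norm_num) (by omega : B.card + 2 ≤ S) hi S₁ T₁ h1 h2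
      (by rw [hpow, ← hn', one_div_mul_eq_div]; exact h3)
      (by rw [hpow, ← hn', one_div_mul_eq_div]; exact h4)
    rw [hpow, ← hn', one_div_mul_eq_div] at h5
    exact h5
  rw [← hn', ← hq, one_div_mul_eq_div] at c1
  have hcard : ∀ N : Finset V, (N.card : ℝ) ≤ n := by
    intro N
    rw [hn']
    exact_mod_cast Finset.card_le_univ N
  have hzX : ∀ x ∈ X, P.Sim B z x := fun x hx => (hyz.symm hBm).trans hBm (hX x hx)
  have hqq : 4 * (n / q ^ 2) ≤ n / q := by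
    rw [mul_div_assoc', div_le_div_iff₀ (by positivity) hq0]
    have h1 : n * (4 * q) ≤ n * (q * q) :=
      mul_le_mul_of_nonneg_left (mul_le_mul_of_nonneg_right hq3 hq0.le) hn0.le
    nlinarith
  have h0X : 0 < n / q ^ 2 := by positivity
  have h3X : n / q ^ 2 ≤ X.card := by linarith
  have hlt : ∀ r : ℝ, n ^ 2 / q ^ 7 ≤ r → ∀ N : Finset V, r ≤ N.card * (n / q ^ 8) → False := by
    intro r h1 N h2
    have h3 : (N.card : ℝ) * (n / q ^ 8) ≤ n * (n / q ^ 8) :=
      mul_le_mul_of_nonneg_right (hcard N) (by positivity)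
    have h4 : n ^ 2 / q ^ 7 ≤ n * (n / q ^ 8) := (h1.trans h2).trans h3
    rw [mul_div_assoc', ← _root_.sq, div_le_div_iff₀ (by positivity) (by positivity)] at h4
    have h5 : q ^ 8 ≤ q ^ 7 := le_of_mul_le_mul_left h4 (by positivity)
    have h6 : q ^ 7 < q ^ 8 := pow_lt_pow_right₀ (by linarith) (by norm_num)
    linarith
  -- points with few successors
  obtain ⟨N₁, hN₁⟩ : ∃ N : Finset V, N = X.filter fun a =>
      ((X.filter fun b => P.Tp B [y, z] [a, b]).card : ℝ) < n / q ^ 8 := ⟨_, rfl⟩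
  obtain ⟨N₂, hN₂⟩ : ∃ N : Finset V, N = X.filter fun a =>
      ((X.filter fun b => P.Tp B [y, z] [b, a]).card : ℝ) < n / q ^ 8 := ⟨_, rfl⟩
  have k1 : (N₁.card : ℝ) < n / q ^ 2 := by
    by_contra hcon
    refine hlt _ (H1 N₁ X (fun a ha => hX a ?_) hzX (not_lt.1 hcon) h3X) N₁ ?_
    · rw [hN₁] at ha
      exact (Finset.mem_filter.1 ha).1
    · refine QTri_rows N₁ X _ _ fun a ha => ?_
      rw [hN₁] at ha
      exact (Finset.mem_filter.1 ha).2.le
  have k2 : (N₂.card : ℝ) < n / q ^ 2 := by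
    by_contra hcon
    refine hlt _ (H1 X N₂ hX (fun a ha => hzX a ?_) h3X (not_lt.1 hcon)) N₂ ?_
    · rw [hN₂] at ha
      exact (Finset.mem_filter.1 ha).1
    · refine QTri_cols N₂ X _ _ fun a ha => ?_
      rw [hN₂] at ha
      exact (Finset.mem_filter.1 ha).2.le
  have k3 : ((fs fun y => y ∈ P.Dcl d).card : ℝ) < n / q ^ 2 := by
    have h1 : ((fs fun y => y ∈ P.Dcl d).card : ℝ) ≤ (K : ℝ) ^ d.card := by
      exact_mod_cast hE.toEnv.dcl_card (by omega : d.card ≤ S)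
    have h2 : (K : ℝ) ^ d.card ≤ (K : ℝ) ^ S := pow_le_pow_right₀ hK1 (by omega)
    rw [← hq] at h2
    refine (h1.trans h2).trans_lt ?_
    rw [lt_div_iff₀ (by positivity)]
    have h3 : q * q ^ 2 = q ^ 3 := by ring
    rw [h3]
    have h4 : 0 < q ^ 3 := by positivity
    linarith
  obtain ⟨a, haX, ha⟩ : ∃ a ∈ X, a ∉ N₁ ∪ N₂ ∪ fs fun y => y ∈ P.Dcl d := by
    by_contra hcon
    push Not at hcon
    have h1 : X ⊆ N₁ ∪ N₂ ∪ fs fun y => y ∈ P.Dcl d := hcon
    have h2 : X.card ≤ N₁.card + N₂.card + (fs fun y => y ∈ P.Dcl d).card :=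
      (Finset.card_le_card h1).trans ((Finset.card_union_le _ _).trans
        (Nat.add_le_add_right (Finset.card_union_le _ _) _))
    have h3 : (X.card : ℝ) ≤ N₁.card + N₂.card + (fs fun y => y ∈ P.Dcl d).card := by
      exact_mod_cast h2
    linarith
  rw [Finset.mem_union, Finset.mem_union, not_or, not_or] at ha
  obtain ⟨⟨a1, a2⟩, a3⟩ := ha
  have b1 : n / q ^ 8 ≤ (X.filter fun b => P.Tp B [y, z] [a, b]).card := by
    by_contra hcon
    refine a1 ?_
    rw [hN₁]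
    exact Finset.mem_filter.2 ⟨haX, not_le.1 hcon⟩
  have b2 : n / q ^ 8 ≤ (X.filter fun b => P.Tp B [y, z] [b, a]).card := by
    by_contra hcon
    refine a2 ?_
    rw [hN₂]
    exact Finset.mem_filter.2 ⟨haX, not_le.1 hcon⟩
  have b3 : a ∉ P.Dcl d := fun h => a3 (mem_fs.2 h)
  have hcd : (insert a d).card ≤ d.card + 1 := Finset.card_insert_le a d
  obtain ⟨b, hb, c', hc', hT, hI⟩ := pair_indQ hE 8 (by norm_num) (B' := insert a d)
    (hBd.trans (Finset.subset_insert a d)) (by omega) hi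
    (X.filter fun b => P.Tp B [y, z] [a, b]) (X.filter fun b => P.Tp B [y, z] [b, a])
    (fun x hx => hX x (Finset.mem_filter.1 hx).1) (fun x hx => hzX x (Finset.mem_filter.1 hx).1)
    (by rw [hpow, ← hn', one_div_mul_eq_div]; exact b1)
    (by rw [hpow, ← hn', one_div_mul_eq_div]; exact b2)
  exact ⟨a, haX, b, (Finset.mem_filter.1 hb).1, c', (Finset.mem_filter.1 hc').1,
    (Finset.mem_filter.1 hb).2, hT, (Finset.mem_filter.1 hc').2, b3, hI.1, hI.2⟩

end MS216
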