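import Pool.Agent.H.MP_216555_lc.Mv
import Pool.Agent.H.MP_216555_lc.q.QTri
import Pool.Agent.H.MP_216555_lc.q.QTqrC
import Pool.Agent.H.MP_216555_lc.q.QColRep
import Pool.Agent.H.MP_216555_lc.q.QRead

/-!
# Step G: the contradiction (explicit)
-/

set_option linter.unusedSectionVars false

namespace MS216

open Finset

variable {V : Type} [Fintype V] [DecidableEq V] {m : ℕ} {P : PI V m} {K S : ℕ}

/-- the strong classes are large -/
private theorem QFinG_large (hE : P.Env K S) {B : Finset V} (hB : B.card ≤ S) {y : V}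
    (hy : y ∉ P.Dcl B) :
    1 / (K : ℝ) ^ S * Fintype.card V ≤ ((fs (P.Sim B y)).card : ℝ) := by
  have hK := hE.hK
  have hK1 : (1 : ℝ) ≤ (K : ℝ) := by exact_mod_cast (show 1 ≤ K by omega)
  have hK0 : (0 : ℝ) < (K : ℝ) := lt_of_lt_of_le one_pos hK1
  have hcard := hE.sim_large hB hy
  rw [one_div, inv_mul_le_iff₀ (by positivity)]
  calc (Fintype.card V : ℝ) ≤ ((K ^ B.card * (fs (P.Sim B y)).card : ℕ) : ℝ) := by
        exact_mod_cast hcard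
    _ = (K : ℝ) ^ B.card * ((fs (P.Sim B y)).card : ℝ) := by push_cast; ring
    _ ≤ (K : ℝ) ^ S * ((fs (P.Sim B y)).card : ℝ) := by
        refine mul_le_mul_of_nonneg_right ?_ (Nat.cast_nonneg _)
        exact pow_le_pow_right₀ hK1 hB

private theorem QFinG_swap {B : Finset V} {y z y' z' : V} (h : P.Tp B [y, z] [y', z']) :
    P.Tp B [z, y] [z', y'] :=
  h.sub rfl (by simp +contextual)

private theorem QFinG_12 {B : Finset V} {w y z w' y' z' : V}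
    (h : P.Tp B [w, y, z] [w', y', z']) : P.Tp B [w, y] [w', y'] :=
  h.sub rfl (by simp +contextual)

private theorem QFinG_13 {B : Finset V} {w y z w' y' z' : V}
    (h : P.Tp B [w, y, z] [w', y', z']) : P.Tp B [w, z] [w', z'] :=
  h.sub rfl (by simp +contextual)

private theorem QFinG_23 {B : Finset V} {w y z w' y' z' : V}
    (h : P.Tp B [w, y, z] [w', y', z']) : P.Tp B [y, z] [y', z'] :=
  h.sub rfl (by simp +contextual)

/-- Sketch.  `colrep_exists` with `b = B₀`, `w₀ = y₀ = x₀`: `R`, `e`.  `d = insert e (B₀ ∪ R)`,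
`|d| ≤ |B₀| + K + 1 ≤ |B₀| + phiQ K`, `d ⊆ B₀ ∪ [x₀]`.  `E = fs (Sim (B₀ ∪ R) e)`,
`X = fs (Sim d x₀)` (`x₀ ∉ Dcl d` by `ColRep.nd`): both in `[x₀]_{B₀}`, sizes `≥ n/K^S`.
`u` with `Sim B₀ x₀ u`, `u ∉ Dcl (insert x₀ B₀)` (so `Ind2 B₀ x₀ u`).  `triQ` for the pair `(x₀, u)`
with `d := B₀` and `X := fs (Sim B₀ x₀)`: `a, b, c` in `[x₀]_{B₀}` with `(a,b)`, `(b,c)`, `(c,a)` of the
type `p` of `(x₀,u)` over `B₀`, `Ind3 B₀ a b c`.
`tqr_indQ` (with `B' = d`, `S₁ = E`, `S₂ = S₃ = X`) for the triple `(a,b,c)`: `(w,y,z) ∈ E × X × X`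
with `Tp B₀ [a,b,c] [w,y,z]`, `Ind3 d w y z`; and for the triple `(b,c,a)` (`ind3_rot`):
`(w',y',z') ∈ E × X × X` with `Tp B₀ [b,c,a] [w',y',z']`, `Ind3 d w' y' z'`.
`(y,z)` has the type of `(b,c)`, `(y',z')` that of `(c,a)`: both `p`; `Diag` (at `x = x₀`, base `d`):
`Tp d [y,z] [y',z']`.  `lemMQ` (`b = B₀`): `Tp B₀ [w,y] [w',y']` (types of `(a,b)`, `(b,c)`: `p`),
`Tp B₀ [w,z] [w',z']` (types of `(a,c)`, `(b,a)`: `p` transposed).  So `Tp B₀ [w,y,z] [w',y',z']`, hence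
`Tp B₀ [a,b,c] [b,c,a]`, and `a ≠ b` (`Ind3`): contradiction to `Env.anti`. -/
theorem stepGQ (s : ℕ) (hS : s + phiQ K + Lp K (s + phiQ K) + 8 ≤ S) (hE : P.EnvQ K S)
    {B₀ : Finset V} (hB : B₀.card ≤ s) {x₀ : V} (hx : x₀ ∉ P.Dcl B₀)
    (hD : P.Diag B₀ x₀ (phiQ K)) (hSt : P.Stab B₀ x₀ x₀) : False := by
  have hK := hE.toEnv.hK
  have hm := hE.toEnv.hm
  have hphi : phiQ K = 2 * K + 1 := rfl
  have hLp : Lp K B₀.card ≤ Lp K (s + phiQ K) := by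
    unfold Lp
    refine Nat.mul_le_mul_left _ (Nat.add_le_add_right (Nat.mul_le_mul_left _ ?_) _)
    omega
  obtain ⟨R, e, hR⟩ := colrep_exists hE (b := B₀) (by omega) hx hx hSt
  have hRc := hR.card
  have hBR : (B₀ ∪ R).card ≤ B₀.card + R.card := Finset.card_union_le _ _
  obtain ⟨d, hd⟩ : ∃ d, d = insert e (B₀ ∪ R) := ⟨_, rfl⟩
  have hdc : d.card ≤ (B₀ ∪ R).card + 1 := by
    rw [hd]; exact Finset.card_insert_le _ _
  have hnd := hR.nd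
  have hed := hR.hed
  have hBRd : B₀ ∪ R ⊆ d := by rw [hd]; exact Finset.subset_insert _ _
  have hBBR : B₀ ⊆ B₀ ∪ R := Finset.subset_union_left
  have hBd : B₀ ⊆ d := hBBR.trans hBRd
  rw [← hd] at hnd
  -- the classes
  have hE0 : ∀ a, P.Sim (B₀ ∪ R) e a → P.Sim B₀ x₀ a := fun a ha =>
    PI.Sim.trans (by omega) hR.he (hE.toEnv.sim_mono hBBR (by omega) hed ha)
  have hX0 : ∀ a, P.Sim d x₀ a → P.Sim B₀ x₀ a := fun a ha =>
    hE.toEnv.sim_mono hBd (by omega) hnd ha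
  have cE := QFinG_large hE.toEnv (B := B₀ ∪ R) (by omega) hed
  have cX := QFinG_large hE.toEnv (B := d) (by omega) hnd
  have c0 := QFinG_large hE.toEnv (B := B₀) (by omega) hx
  obtain ⟨u, hu, hud⟩ := hE.toEnv.exists_sim_notMem_dcl (B := B₀) (B' := insert x₀ B₀) (by omega)
    (by have := Finset.card_insert_le x₀ B₀; omega) hx
  obtain ⟨a, ha, b, hb, c, hc, h1, h2, h3, hi⟩ := triQ hE (Finset.Subset.refl B₀) (by omega) hu
    ⟨hx, hud⟩ (fs (P.Sim B₀ x₀)) (fun a ha => mem_fs.1 ha) c0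
  rw [mem_fs] at ha hb hc
  have hi1 : P.Ind3 B₀ b c a := hE.toEnv.ind3_rot (by omega) hi
  have hsim : ∀ {p q : V}, P.Sim B₀ x₀ p → P.Sim B₀ x₀ q → P.Sim B₀ p q := fun hp hq =>
    PI.Sim.trans (by omega) (PI.Sim.symm (by omega) hp) hq
  obtain ⟨w, hw, y, hy, z, hz, t1, i1⟩ := tqr_indQ hE hBd (by omega) (hsim ha hb) (hsim ha hc) hi
    (fs (P.Sim (B₀ ∪ R) e)) (fs (P.Sim d x₀)) (fs (P.Sim d x₀))
    (fun p hp => hsim ha (hE0 p (mem_fs.1 hp))) (fun p hp => hsim ha (hX0 p (mem_fs.1 hp)))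
    (fun p hp => hsim ha (hX0 p (mem_fs.1 hp))) cE cX cX
  obtain ⟨w', hw', y', hy', z', hz', t2, i2⟩ := tqr_indQ hE hBd (by omega) (hsim hb hc)
    (hsim hb ha) hi1 (fs (P.Sim (B₀ ∪ R) e)) (fs (P.Sim d x₀)) (fs (P.Sim d x₀))
    (fun p hp => hsim hb (hE0 p (mem_fs.1 hp))) (fun p hp => hsim hb (hX0 p (mem_fs.1 hp)))
    (fun p hp => hsim hb (hX0 p (mem_fs.1 hp))) cE cX cX
  rw [mem_fs] at hw hy hz hw' hy' hz'
  have j1 : P.Ind3 d y z w := hE.toEnv.ind3_rot (by omega) i1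
  have j2 : P.Ind3 d y' z' w' := hE.toEnv.ind3_rot (by omega) i2
  have hyz : P.Tp B₀ [y, z] [y', z'] :=
    (((QFinG_23 t1).symm.trans h2.symm).trans h3).trans (QFinG_23 t2)
  have hwy : P.Tp B₀ [w, y] [w', y'] :=
    (((QFinG_12 t1).symm.trans h1.symm).trans h2).trans (QFinG_12 t2)
  have hwz : P.Tp B₀ [w, z] [w', z'] :=
    ((QFinG_13 t1).symm.trans (QFinG_swap (h3.symm.trans h1))).trans (QFinG_13 t2)
  have hdm : ∀ p ∈ d, p ∈ B₀ ∨ P.Sim B₀ x₀ p := by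
    intro p hp
    rw [hd, Finset.mem_insert, Finset.mem_union] at hp
    rcases hp with hp | hp | hp
    · right; rw [hp]; exact hR.he
    · exact Or.inl hp
    · exact Or.inr (hR.sub p hp)
  have ht := hD d hBd hdm (by omega) x₀ (PI.sim_refl (by omega) x₀) hnd y z y' z' hy hz hy' hz'
    ⟨j1.1, j1.2.1⟩ ⟨j2.1, j2.2.1⟩ hyz
  have hi3 : P.Ind3 (B₀ ∪ R) w y z := PI.ind3_mono hBRd i1
  have hi4 : P.Ind3 (B₀ ∪ R) w' y' z' := PI.ind3_mono hBRd i2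
  rw [hd] at ht hy hz hy' hz'
  have hfin := hE.toEnv.lemMQ (b := B₀) (R := R) (by omega) hSt hR hw hw' hy hz hy' hz' ht hi3 hi4
    hwy hwz
  have hab : P.Tp B₀ [a, b, c] [b, c, a] := (t1.trans hfin).trans t2.symm
  refine hE.toEnv.anti B₀ (by omega) a b c ?_ hab
  rintro rfl
  exact hi.2.1 (PI.mem_dcl_self (Finset.mem_insert_self _ _))

end MS216
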