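import Pool.Agent.H.MP_216555_lc.q.QFinF
import Pool.Agent.H.MP_216555_lc.q.QFinG
import Pool.Agent.H.MP_216555_lc.q.QDiagEx

/-!
# The core proposition (explicit)
-/

set_option linter.unusedSectionVars false

namespace MS216

theorem coreQ {V : Type} [Fintype V] [DecidableEq V] {m : ℕ} {P : PI V m} {K : ℕ}
    (hE : P.EnvQ K (SQ K)) : False := by
  have h : K * phiQ K + Lp K (K * phiQ K) + 4 ≤ SQ K := by
    have : Lp K (K * phiQ K) ≤ Lp K (K * phiQ K + phiQ K) := by
      unfold Lp
      gcongr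
      omega
    unfold SQ
    omega
  obtain ⟨B₀, x₀, hB, hx, hD⟩ := diag_existsQ h hE
  exact stepGQ (K * phiQ K) le_rfl hE hB hx hD
    (stepFQ (K * phiQ K) le_rfl hE hB hx hD)

end MS216
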