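import Pool.Agent.H.MP_216555_lc.Good
import Pool.Agent.H.MP_216555_lc.Mv

/-!
# A simple exponential lower bound
-/

set_option linter.unusedSectionVars false

namespace MS216

open Finset

private theorem ge_disj {V : Type} [Fintype V] [DecidableEq V] {m : ℕ} {P : PI V m}
    {B : Finset V} {y y' : V} (h : ¬ P.Tp B [y] [y']) :
    Disjoint (fs fun z => P.Tp B [y] [z]) (fs fun z => P.Tp B [y'] [z]) := by
  rw [Finset.disjoint_left]
  intro z hz hz'
  rw [mem_fs] at hz hz'
  exact h (hz.trans hz'.symm)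

private theorem ge_two {V : Type} [Fintype V] [DecidableEq V] {m : ℕ} {P : PI V m}
    (hP : P.Good) (hm : 8 ≤ m) {v y : V} (hvy : v ≠ y) :
    ∃ z, z ≠ y ∧ z ≠ v ∧ P.Tp {v} [y] [z] := by
  obtain ⟨z, hz, ht⟩ := hP.mfree ∅ (by simp; omega) v y hvy (hP.hom v y)
  refine ⟨z, hz, ?_, ?_⟩
  · have h1 := ht.eq_iff (a := v) (b := v) (c := y) (d := z) (by simp [mem_pr])
      (by simp [mem_pr])
    exact fun h2 => hvy (h1.2 h2.symm)
  · exact ht.mv rfl (by simp +contextual) (by simp +contextual)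

/-- One step.  Sketch: `P` good on `V`, `n = |V|`, fix `v`.
Case 1: there are `y, y' ≠ v` with `¬ Tp {v} [y] [y']`.  Their orbits over `{v}` are disjoint subsets of
`V \ {v}`, so one of them has `n'` points, `2 n' ≤ n`; it has at least two points (`hom`, `mfree` with
`B = ∅`), so `Good.sub` (`B = {v}`, `e` = orbit relation) gives the first alternative.
Case 2: `Tp {v} [y] [y']` for all `y, y' ≠ v`.  Then by `hom` and transfer all pairs of different
points have the same type: `Tp ∅ [a,b] [a',b']` for `a ≠ b`, `a' ≠ b'`.  Take `y ≠ v`, `z ≠ v, y` (`n ≥ 3` by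
`mfree`), `u` with `Tp ∅ [y,z,v] [v,y,u]` and `u'` with `Tp ∅ [z,v,y] [v,y,u']`.  The orbits of
`z, u, u'` over `{v,y}` are pairwise different: otherwise `Tp ∅ [v,y,z] [y,z,v]`, or
`Tp ∅ [z,v,y] [v,y,z]`, or `Tp ∅ [y,z,v] [z,v,y]`, contradicting `anti`.  They avoid `v, y` and each
has at least two points (`mfree` with `B = {v}`), so the smallest has `n'` points with
`3 n' ≤ n`; `Good.sub` with `B = {v,y}`. -/
theorem HasGood.step {m n : ℕ} (hm : 8 ≤ m) (h : HasGood m n) :
    (∃ n', 2 * n' ≤ n ∧ HasGood (m - 1) n') ∨ (∃ n', 3 * n' ≤ n ∧ HasGood (m - 2) n') := by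
  obtain ⟨V, i1, i2, P, hP, rfl⟩ := h
  have h2 := hP.two
  obtain ⟨v, w, hvw⟩ : ∃ v w : V, v ≠ w :=
    Fintype.exists_pair_of_one_lt_card (by omega)
  by_cases hc : ∃ y y', y ≠ v ∧ y' ≠ v ∧ ¬ P.Tp {v} [y] [y']
  · left
    obtain ⟨y, y', hy, hy', ht⟩ := hc
    have hI : P.InvEq {v} (fun y z => P.Tp {v} [y] [z]) := PI.invEq_orbit (by simp; omega)
    have key : ∀ x, x ≠ v → HasGood (m - 1) (fs fun z => P.Tp {v} [x] [z]).card := by
      intro x hx
      obtain ⟨z, hz, -, hxz⟩ := ge_two hP hm hx.symm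
      have h3 := hP.sub (B := {v}) (by simp; omega) hI hz hxz
      rwa [card_singleton] at h3
    have hs : (fs fun z => P.Tp {v} [y] [z]).card + (fs fun z => P.Tp {v} [y'] [z]).card ≤
        Fintype.card V := by
      rw [← card_union_of_disjoint (ge_disj ht)]
      exact card_le_univ _
    rcases le_total (fs fun z => P.Tp {v} [y] [z]).card
      (fs fun z => P.Tp {v} [y'] [z]).card with h4 | h4
    · exact ⟨_, by omega, key y hy⟩
    · exact ⟨_, by omega, key y' hy'⟩
  · right
    push Not at hc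
    -- all pairs have the same type
    have hv1 : ∀ a b : V, a ≠ b → ∃ b1, b1 ≠ v ∧ P.Tp ∅ [b, a] [b1, v] := by
      intro a b hab
      obtain ⟨b1, hb1⟩ := (hP.hom a v).ext1 (by simp; omega) b
      refine ⟨b1, ?_, hb1⟩
      have h1 := hb1.eq_iff (a := b) (b := b1) (c := a) (d := v) (by simp [mem_pr])
        (by simp [mem_pr])
      exact fun h2 => hab (h1.2 h2).symm
    have hall : ∀ a b a' b' : V, a ≠ b → a' ≠ b' → P.Tp ∅ [a, b] [a', b'] := by
      intro a b a' b' hab hab'
      obtain ⟨b1, hb1, h1⟩ := hv1 a b hab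
      obtain ⟨b2, hb2, h2⟩ := hv1 a' b' hab'
      have h3 : P.Tp ∅ [b1, v] [b2, v] :=
        (hc b1 b2 hb1 hb2).mv rfl (by simp) (by simp +contextual)
      have h4 := (h1.trans h3).trans h2.symm
      exact h4.sub rfl (by simp +contextual)
    obtain ⟨z, hzw, hzv, -⟩ := ge_two hP hm hvw
    obtain ⟨u, hu⟩ := (hall w z v w hzw.symm hvw).ext1 (by simp; omega) v
    obtain ⟨u', hu'⟩ := (hall z v v w hzv hvw).ext1 (by simp; omega) w
    have hB : ({v, w} : Finset V).card = 2 := card_pair hvw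
    have hI : P.InvEq {v, w} (fun y z => P.Tp {v, w} [y] [z]) := PI.invEq_orbit (by omega)
    have key : ∀ x, x ≠ v → x ≠ w → HasGood (m - 2) (fs fun z => P.Tp {v, w} [x] [z]).card := by
      intro x hxv hxw
      obtain ⟨x', hx', ht⟩ := hP.mfree {v} (by simp; omega) w x hxw.symm (hc w x hvw.symm hxv)
      have ht' : P.Tp {v, w} [x] [x'] :=
        ht.mv rfl (by simp +contextual) (by simp +contextual)
      have h3 := hP.sub (B := {v, w}) (by omega) hI hx' ht'
      rwa [hB] at h3
    have huv : u ≠ v := by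
      have h1 := hu.eq_iff (a := v) (b := u) (c := w) (d := v) (by simp [mem_pr])
        (by simp [mem_pr])
      exact fun h3 => hvw (h1.2 h3)
    have huw : u ≠ w := by
      have h1 := hu.eq_iff (a := v) (b := u) (c := z) (d := w) (by simp [mem_pr])
        (by simp [mem_pr])
      exact fun h3 => hzv (h1.2 h3).symm
    have huv' : u' ≠ v := by
      have h1 := hu'.eq_iff (a := w) (b := u') (c := z) (d := v) (by simp [mem_pr])
        (by simp [mem_pr])
      exact fun h3 => hzw (h1.2 h3).symm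
    have huw' : u' ≠ w := by
      have h1 := hu'.eq_iff (a := w) (b := u') (c := v) (d := w) (by simp [mem_pr])
        (by simp [mem_pr])
      exact fun h3 => hvw (h1.2 h3).symm
    have hb : ∀ x x' : V, P.Tp {v, w} [x] [x'] → P.Tp ∅ [v, w, x] [v, w, x'] := fun x x' h3 =>
      h3.mv rfl (by simp) (by simp +contextual)
    have n1 : ¬ P.Tp {v, w} [z] [u] := by
      intro h3
      have h4 : P.Tp ∅ [v, w, u] [w, z, v] := hu.symm.sub rfl (by simp +contextual)
      exact hP.anti ∅ v w z hvw ((hb _ _ h3).trans h4)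
    have n2 : ¬ P.Tp {v, w} [z] [u'] := by
      intro h3
      have h4 : P.Tp ∅ [v, w, u'] [z, v, w] := hu'.symm.sub rfl (by simp +contextual)
      exact hP.anti ∅ z v w hzv ((hb _ _ h3).trans h4).symm
    have n3 : ¬ P.Tp {v, w} [u] [u'] := by
      intro h3
      have h4 : P.Tp ∅ [w, z, v] [v, w, u] := hu.sub rfl (by simp +contextual)
      have h5 : P.Tp ∅ [v, w, u'] [z, v, w] := hu'.symm.sub rfl (by simp +contextual)
      exact hP.anti ∅ w z v hzw.symm ((h4.trans (hb _ _ h3)).trans h5)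
    have hs : (fs fun x => P.Tp {v, w} [z] [x]).card + (fs fun x => P.Tp {v, w} [u] [x]).card +
        (fs fun x => P.Tp {v, w} [u'] [x]).card ≤ Fintype.card V := by
      rw [← card_union_of_disjoint (ge_disj n1), ← card_union_of_disjoint]
      · exact card_le_univ _
      · rw [disjoint_union_left]
        exact ⟨ge_disj n2, ge_disj n3⟩
    have k1 := key z hzv hzw
    have k2 := key u huv huw
    have k3 := key u' huv' huw'
    generalize (fs fun x => P.Tp {v, w} [z] [x]).card = a at hs k1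
    generalize (fs fun x => P.Tp {v, w} [u] [x]).card = b at hs k2
    generalize (fs fun x => P.Tp {v, w} [u'] [x]).card = c at hs k3
    by_cases ha : 3 * a ≤ Fintype.card V
    · exact ⟨a, ha, k1⟩
    by_cases hb : 3 * b ≤ Fintype.card V
    · exact ⟨b, hb, k2⟩
    · exact ⟨c, by omega, k3⟩

/-- Strong induction on `m` with `HasGood.step`; for `m ≤ 8` trivial (`2 ≤ n`). -/
theorem HasGood.exp {m n : ℕ} (h : HasGood m n) : 2 ^ m ≤ n ^ 2 * 2 ^ 8 := by
  induction m using Nat.strong_induction_on generalizing n with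
  | _ m ih =>
    rcases le_or_gt m 8 with hm | hm
    · have h1 : 2 ^ m ≤ 2 ^ 8 := Nat.pow_le_pow_right (by norm_num) hm
      obtain ⟨V, i1, i2, P, hP, rfl⟩ := h
      have h2 : 1 ≤ Fintype.card V ^ 2 := Nat.one_le_pow _ _ (by have := hP.two; omega)
      calc 2 ^ m ≤ 1 * 2 ^ 8 := by rw [one_mul]; exact h1
        _ ≤ Fintype.card V ^ 2 * 2 ^ 8 := Nat.mul_le_mul_right _ h2
    · rcases h.step (by omega) with ⟨n', h1, h2⟩ | ⟨n', h1, h2⟩
      · have h3 := ih (m - 1) (by omega) h2
        have h4 : 2 ^ m = 2 * 2 ^ (m - 1) := by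
          rw [← pow_succ', Nat.sub_add_cancel (by omega)]
        rw [h4]
        have h5 : (2 * n') ^ 2 ≤ n ^ 2 := Nat.pow_le_pow_left h1 2
        nlinarith [sq_nonneg n']
      · have h3 := ih (m - 2) (by omega) h2
        have h4 : 2 ^ m = 4 * 2 ^ (m - 2) := by
          have h6 : m = (m - 2) + 2 := by omega
          rw [h6, pow_add, Nat.add_sub_cancel]
          ring
        rw [h4]
        have h5 : (3 * n') ^ 2 ≤ n ^ 2 := Nat.pow_le_pow_left h1 2
        nlinarith [sq_nonneg n']

end MS216
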