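import Pool.Agent.H.MP_216555_lc.q.QPairInd

/-!
# Step F, part 2: the second type lives on the same cells (explicit)
-/

set_option linter.unusedSectionVars false

namespace MS216

open Finset

variable {V : Type} [Fintype V] [DecidableEq V] {m : ℕ} {P : PI V m} {K S : ℕ}

/-- dropping and permuting points of the lists -/
private theorem secondQ_sub {V : Type} [Fintype V] [DecidableEq V] {m : ℕ} {P : PI V m}
    {B : Finset V} {l l' k k' : List V} (h : P.Tp B l l') (hl : k.length = k'.length)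
    (hs : ∀ p ∈ k.zip k', p ∈ l.zip l') : P.Tp B k k' :=
  h.mono hl fun a b hab => by
    rw [mem_pr] at hab ⊢
    rcases hab with hab | hab
    · exact Or.inl hab
    · exact Or.inr (hs _ hab)

/-- moving a point from the base to the lists -/
private theorem secondQ_out {V : Type} [Fintype V] [DecidableEq V] {m : ℕ} {P : PI V m}
    {B : Finset V} {l l' : List V} {v : V} (h : P.Tp (insert v B) l l') :
    P.Tp B (v :: l) (v :: l') :=
  h.mono (by simp [h.len]) fun a b hab => by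
    rw [mem_pr] at hab ⊢
    rw [List.zip_cons_cons, List.mem_cons, Prod.mk.injEq] at hab
    rw [mem_insert]
    rcases hab with ⟨rfl, hab⟩ | ⟨rfl, rfl⟩ | hab
    · exact Or.inl ⟨rfl, Or.inr hab⟩
    · exact Or.inl ⟨rfl, Or.inl rfl⟩
    · exact Or.inr hab

/-- As `second` in `Second.lean`, with `pair_indQ`, `d = 10`. -/
theorem secondQ (hE : P.EnvQ K S) {B b d : Finset V} (hBb : B ⊆ b) (hbd : b ⊆ d)
    (hd : d.card + 4 ≤ S) {v w y w' y' : V} (h1 : P.Sim (insert v B) w w')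
    (h2 : P.Sim (insert v B) y y') (h3 : P.Ind2 (insert v B) w' y') {v₁ w₁ y₁ : V}
    (h4 : P.Tp B [v, w, y] [v₁, w₁, y₁]) (h5 : P.Ind2 (insert v₁ d) w₁ y₁)
    (Y₁ Y₂ : Finset V) (h6 : ∀ a ∈ Y₁, P.Sim (insert v₁ b) w₁ a)
    (h7 : ∀ a ∈ Y₂, P.Sim (insert v₁ b) y₁ a)
    (c1 : 1 / (K : ℝ) ^ (10 * S) * Fintype.card V ≤ Y₁.card)
    (c2 : 1 / (K : ℝ) ^ (10 * S) * Fintype.card V ≤ Y₂.card) :
    ∃ w₂ ∈ Y₁, ∃ y₂ ∈ Y₂, P.Tp B [v, w', y'] [v₁, w₂, y₂] ∧
      P.Ind2 (insert v₁ d) w₂ y₂ := by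
  have hm := hE.hm
  have hBd : B.card ≤ d.card := card_le_card (hBb.trans hbd)
  have hB6 : B.card + 6 ≤ m := by omega
  have hcv : (insert v₁ d).card ≤ d.card + 1 := card_insert_le _ _
  have hcb : (insert v₁ b).card ≤ b.card + 1 := card_insert_le _ _
  have hcB : (insert v₁ B).card ≤ B.card + 1 := card_insert_le _ _
  have hbc : b.card ≤ d.card := card_le_card hbd
  have hB6' : (insert v₁ B).card + 6 ≤ m := by omega
  obtain ⟨w₂, g4⟩ := h4.ext1 (by simp; omega) w'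
  obtain ⟨y₂, g5⟩ := g4.ext1 (by simp; omega) y'
  have hw₂ : P.Sim (insert v₁ B) w₁ w₂ := by
    have h8 : P.Tp B [v, w, w'] [v₁, w₁, w₂] := secondQ_sub g5 rfl (by simp)
    exact h8.sim_insert hB6 h1
  have hy₂ : P.Sim (insert v₁ B) y₁ y₂ := by
    have h8 : P.Tp B [v, y, y'] [v₁, y₁, y₂] := secondQ_sub g5 rfl (by simp)
    exact h8.sim_insert hB6 h2
  have hi₂ : P.Ind2 (insert v₁ B) w₂ y₂ := by
    refine ⟨fun h => h3.1 ?_, fun h => h3.2 ?_⟩
    · have h8 : P.Tp B [v, w'] [v₁, w₂] := secondQ_sub g5 rfl (by simp)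
      exact (h8.dcl_insert hB6).2 h
    · have h8 : P.Tp B [w', v, y'] [w₂, v₁, y₂] := secondQ_sub g5 rfl (by simp)
      exact (h8.dcl_insert2 hB6).2 h
  have hsub : insert v₁ b ⊆ insert v₁ d := insert_subset_insert _ hbd
  have hw₁ : w₁ ∉ P.Dcl (insert v₁ b) := fun h => h5.1 (PI.dcl_mono hsub h)
  have hy₁ : y₁ ∉ P.Dcl (insert v₁ b) := fun h =>
    h5.2 (PI.dcl_mono (hsub.trans (subset_insert _ _)) h)
  have hsB : insert v₁ B ⊆ insert v₁ b := insert_subset_insert _ hBb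
  obtain ⟨a, ha, c, hc, g7, g8⟩ := pair_indQ hE 10 le_rfl
    (hsB.trans hsub) (by omega) hi₂ Y₁ Y₂
    (fun a ha => (hw₂.symm hB6').trans hB6' (hE.sim_mono hsB (by omega) hw₁ (h6 a ha)))
    (fun a ha => (hy₂.symm hB6').trans hB6' (hE.sim_mono hsB (by omega) hy₁ (h7 a ha)))
    c1 c2
  refine ⟨a, ha, c, hc, ?_, g8⟩
  have h9 : P.Tp B [v, w', y'] [v₁, w₂, y₂] := secondQ_sub g5 rfl (by simp)
  have h10 : P.Tp B [v₁, w₂, y₂] [v₁, a, c] := secondQ_out g7
  exact h9.trans h10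

end MS216
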