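import Pool.Agent.H.MP_216555_lc.q.QNCc

/-!
# Existence of stable pairs (explicit)
-/

set_option linter.unusedSectionVars false

namespace MS216

open Finset

variable {V : Type} [Fintype V] [DecidableEq V] {m : ℕ} {P : PI V m} {K S : ℕ}

/-- `stab_exists` of `StabEx.lean` with the explicit lemmas. -/
theorem stab_existsQ (s : ℕ) (hS : s + K + Lp K (s + K) + 4 ≤ S) (hE : P.EnvQ K S)
    {B : Finset V} (hB : B.card ≤ s) {w₀ y₀ : V} (hw : w₀ ∉ P.Dcl B) (hy : y₀ ∉ P.Dcl B) :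
    ∃ (B' : Finset V) (w₁ y₁ : V), B ⊆ B' ∧ B'.card ≤ B.card + K ∧
      (∀ x ∈ B', x ∈ B ∨ P.Sim B w₀ x ∨ P.Sim B y₀ x) ∧ P.Sim B w₀ w₁ ∧ P.Sim B y₀ y₁ ∧
      w₁ ∉ P.Dcl B' ∧ y₁ ∉ P.Dcl B' ∧ P.Stab B' w₁ y₁ := by
  have hmS := hE.toEnv.hm
  have hBm : B.card + 6 ≤ m := by omega
  have key : ∀ k : ℕ, k ≤ K →
      (∃ (B' : Finset V) (w₁ y₁ : V), B ⊆ B' ∧ B'.card ≤ B.card + K ∧
        (∀ x ∈ B', x ∈ B ∨ P.Sim B w₀ x ∨ P.Sim B y₀ x) ∧ P.Sim B w₀ w₁ ∧ P.Sim B y₀ y₁ ∧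
        w₁ ∉ P.Dcl B' ∧ y₁ ∉ P.Dcl B' ∧ P.Stab B' w₁ y₁) ∨
      (∃ (B' : Finset V) (w₁ y₁ : V), B ⊆ B' ∧ B'.card ≤ B.card + k ∧
        (∀ x ∈ B', x ∈ B ∨ P.Sim B w₀ x ∨ P.Sim B y₀ x) ∧ P.Sim B w₀ w₁ ∧ P.Sim B y₀ y₁ ∧
        w₁ ∉ P.Dcl B' ∧ y₁ ∉ P.Dcl B' ∧ P.NC B' w₁ y₁ (k + 1)) := by
    intro k
    induction k with
    | zero =>
      intro _
      right
      exact ⟨B, w₀, y₀, subset_rfl, by omega, fun x hx => Or.inl hx, PI.sim_refl hBm w₀,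
        PI.sim_refl hBm y₀, hw, hy, PI.EnvQ.nc_one hE (by omega) hw hy⟩
    | succ k ih =>
      intro hk
      rcases ih (by omega) with h | ⟨B', w₁, y₁, hBB, hc, hx, hw1, hy1, hwd, hyd, hNC⟩
      · exact Or.inl h
      by_cases hst : P.Stab B' w₁ y₁
      · exact Or.inl ⟨B', w₁, y₁, hBB, by omega, hx, hw1, hy1, hwd, hyd, hst⟩
      right
      unfold PI.Stab at hst
      push Not at hst
      obtain ⟨v, hv, w, w', y, y', h3, h4, h5, h6, h7, h8, h9, h10, h11, h12⟩ := hst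
      have hB'S : B'.card ≤ S := by omega
      have hcv : (insert v B').card ≤ B'.card + 1 := Finset.card_insert_le v B'
      have hvm : (insert v B').card + 6 ≤ m := by omega
      have hwv : w ∉ P.Dcl (insert v B') := h10.1
      have hyv : y ∉ P.Dcl (insert v B') := fun hh =>
        h10.2 (PI.dcl_mono (Finset.subset_insert w _) hh)
      have hlift : ∀ {a b c : V}, P.Sim B a b → b ∉ P.Dcl B' → P.Sim B' b c → P.Sim B a c :=
        fun hab hb hbc => hab.trans hBm (hE.toEnv.sim_mono hBB hB'S hb hbc)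
      refine ⟨insert v B', w, y, hBB.trans (Finset.subset_insert v B'), by omega, ?_,
        hlift hw1 hwd h3, hlift hy1 hyd h5, hwv, hyv, ?_⟩
      · intro x hxv
        rcases Finset.mem_insert.1 hxv with rfl | hxB
        · rcases hv with hv | hv
          · exact Or.inr (Or.inl (hlift hw1 hwd hv))
          · exact Or.inr (Or.inr (hlift hy1 hyd hv))
        · exact hx x hxB
      · exact nc_splitQ hE (Finset.subset_insert v B') (by omega) hwv hyv h3 h5 hNC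
          (PI.sim_refl hvm w) h7 (PI.sim_refl hvm y) h8 h10 h11 h9 h12
  rcases key K le_rfl with h | ⟨B', w₁, y₁, hBB, hc, hx, hw1, hy1, hwd, hyd, hNC⟩
  · exact h
  · exact absurd hNC (nc_boundQ (s + K) hS hE (by omega) hwd hyd)

end MS216
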