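import Pool.Agent.H.MP_216555_lc.q.QCells
import Pool.Agent.H.MP_216555_lc.q.QSecond
import Pool.Agent.H.MP_216555_lc.q.QStabEx
import Pool.Agent.H.MP_216555_lc.q.QColRep
import Pool.Agent.H.MP_216555_lc.q.QRead

/-!
# Step F: a diagonally stable class is stable (explicit)
-/

set_option linter.unusedSectionVars false

namespace MS216

open Finset

variable {V : Type} [Fintype V] [DecidableEq V] {m : ℕ} {P : PI V m} {K S : ℕ}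

private theorem qfinF_drop {B : Finset V} {v w y v' w' y' : V}
    (h : P.Tp B [v, w, y] [v', w', y']) : P.Tp B [w, y] [w', y'] :=
  h.mono rfl (by intro a b; simp [mem_pr]; grind)

private theorem qfinF_out {B : Finset V} {v w w' : V} (h : P.Tp (insert v B) [w] [w']) :
    P.Tp B [v, w] [v, w'] :=
  h.mono rfl (by intro a b; simp [mem_pr]; grind)

private theorem qfinF_in {B : Finset V} {v w y w' y' : V} (h : P.Tp B [v, w, y] [v, w', y']) :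
    P.Tp (insert v B) [w, y] [w', y'] :=
  h.mono rfl (by intro a b; simp [mem_pr]; grind)

private theorem qfinF_aux {K n c k S : ℕ} (hK : 0 < K) (hk : k ≤ S)
    (h : n ≤ K ^ k * c) : (1 / (K : ℝ) ^ S) * (n : ℝ) ≤ (c : ℝ) := by
  have h1 : n ≤ K ^ S * c := h.trans (Nat.mul_le_mul_right _ (Nat.pow_le_pow_right hK hk))
  have h2 : (n : ℝ) ≤ (K : ℝ) ^ S * (c : ℝ) := by exact_mod_cast h1
  have hK' : (0 : ℝ) < (K : ℝ) ^ S := by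
    have : (0 : ℝ) < (K : ℝ) := by exact_mod_cast hK
    positivity
  rw [one_div, inv_mul_le_iff₀ hK']
  exact h2

/-- Sketch (compare `stepF` in `FinF.lean`).  Let `v, w, w', y, y'` be as in the definition of
`Stab B₀ x₀ x₀`.
1. `stab_existsQ` (`s`) for `B₀, x₀, x₀`: `b ⊇ B₀`, `w₁, y₁` with `Stab b w₁ y₁`,
   `|b| ≤ |B₀| + K`, `b ⊆ B₀ ∪ [x₀]`.
2. `colrep_exists`: `R`, `e` with `ColRep K b w₁ y₁ R e`; `d = insert e (b ∪ R)`,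
   `|d| ≤ |B₀| + 2 K + 1 = |B₀| + phiQ K`, `d ⊆ B₀ ∪ [x₀]`.  `E = fs (Sim (b ∪ R) e)`,
   `X = fs (Sim d y₁)` (`y₁ ∉ Dcl d` by `ColRep.nd`): both in `[x₀]_{B₀} = [v]_{B₀}` (`sim_mono`), sizes
   `≥ n / K^S` (`sim_large`).
3. `cellsQ` for `B₀ ⊆ b ⊆ d` and the triple `(v,w,y)` (`Ind3 B₀ v w y`: `v ∉ Dcl B₀` as `v ∈ [x₀]`):
   `v₁ ∈ E`, `Y₁, Y₂ ⊆ X`, `(w₂,y₂) ∈ Y₁ × Y₂` of the type of `(v,w,y)`.
4. `secondQ` for `w', y'`: `(w₃,y₃) ∈ Y₁ × Y₂` with `Tp B₀ [v,w',y'] [v₁,w₃,y₃]`.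
5. `Tp B₀ [w₂,y₂] [w₃,y₃]` (through `[w,y]`, `[w',y']`), all four in `X`, both pairs `Ind2 d`
   (`ind2_mono`), so `Diag` (at `x = y₁`) gives `Tp d [w₂,y₂] [w₃,y₃]`.
6. `lemMQ` with `w = w' = v₁`, `(y,z) = (w₂,y₂)`, `(y',z') = (w₃,y₃)`:
   `Tp b [v₁,w₂] [v₁,w₃]` because `Sim (insert v₁ b) w₂ w₃`, same for `y₂, y₃`;
   `Ind3 (b ∪ R) v₁ w₂ y₂` as `v₁ ∉ Dcl (b ∪ R)` (`v₁ ∈ E`, `Sim.dcl_iff`) and
   `Ind2 (insert v₁ d) w₂ y₂`.  So `Tp b [v₁,w₂,y₂] [v₁,w₃,y₃]`, so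
   `Tp B₀ [v,w,y] [v,w',y']`, i.e. `Tp (insert v B₀) [w,y] [w',y']`. -/
theorem stepFQ (s : ℕ) (hS : s + phiQ K + Lp K (s + phiQ K) + 8 ≤ S) (hE : P.EnvQ K S)
    {B₀ : Finset V} (hB : B₀.card ≤ s) {x₀ : V} (hx : x₀ ∉ P.Dcl B₀)
    (hD : P.Diag B₀ x₀ (phiQ K)) : P.Stab B₀ x₀ x₀ := by
  have hEE : P.Env K S := hE.toEnv
  have hK0 : 0 < K := by
    have := hEE.hK
    omega
  have hphi : phiQ K = 2 * K + 1 := rfl
  have hLpm : ∀ a, a ≤ s + phiQ K → Lp K a ≤ Lp K (s + phiQ K) := by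
    intro a ha
    unfold Lp
    gcongr
  have hLp : Lp K (s + K) ≤ Lp K (s + phiQ K) := hLpm _ (by omega)
  intro v hv w w' y y' hw hw' hy hy' hww hyy ht hi hi'
  have hv : P.Sim B₀ x₀ v := by tauto
  have hm := hEE.hm
  -- step 1
  obtain ⟨b, w₁, y₁, hBb, hbc, hbm, hsw, hsy, hwd, hyd, hst⟩ :=
    stab_existsQ s (by omega) hE hB hx hx
  -- step 2
  have hLpb : Lp K b.card ≤ Lp K (s + phiQ K) := hLpm _ (by omega)
  obtain ⟨R, e, hR⟩ := colrep_exists hE (b := b) (by omega) hwd hyd hst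
  have hRc := hR.card
  have hse := hR.he
  have hed := hR.hed
  have hbR : (b ∪ R).card ≤ b.card + R.card := Finset.card_union_le _ _
  obtain ⟨d, hd⟩ : ∃ d, d = insert e (b ∪ R) := ⟨_, rfl⟩
  have hxd : y₁ ∉ P.Dcl d := by
    rw [hd]
    exact hR.nd
  have hdc : d.card ≤ (b ∪ R).card + 1 := by
    rw [hd]; exact Finset.card_insert_le _ _
  have hbRd : b ∪ R ⊆ d := by
    rw [hd]; exact Finset.subset_insert _ _
  have hbd : b ⊆ d := Finset.subset_union_left.trans hbRd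
  have hbm' : b.card + 6 ≤ m := by omega
  have hBm' : B₀.card + 6 ≤ m := by omega
  have hbRm' : (b ∪ R).card + 6 ≤ m := by omega
  have hdm' : d.card + 6 ≤ m := by omega
  have hkey : ∀ a, P.Sim b w₁ a → P.Sim B₀ x₀ a := fun a ha =>
    hsw.trans hBm' (hEE.sim_mono hBb (by omega) hwd ha)
  have hkey2 : ∀ a, P.Sim d y₁ a → P.Sim B₀ x₀ a := fun a ha =>
    hsy.trans hBm' (hEE.sim_mono (hBb.trans hbd) (by omega) hxd ha)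
  have hE1 : ∀ a ∈ fs (P.Sim (b ∪ R) e), P.Sim b w₁ a := by
    intro a ha
    rw [mem_fs] at ha
    exact hse.trans hbm' (hEE.sim_mono Finset.subset_union_left (by omega) hed ha)
  have hX1 : ∀ a ∈ fs (P.Sim d y₁), P.Sim (insert e (b ∪ R)) y₁ a := by
    intro a ha
    rw [mem_fs] at ha
    rw [← hd]
    exact ha
  have hdm : ∀ a ∈ d, a ∈ B₀ ∨ P.Sim B₀ x₀ a := by
    intro a ha
    rw [hd, Finset.mem_insert, Finset.mem_union] at ha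
    rcases ha with rfl | ha | ha
    · exact Or.inr (hkey _ hse)
    · have := hbm a ha
      tauto
    · exact Or.inr (hkey _ (hR.sub a ha))
  have hvd : v ∉ P.Dcl B₀ := fun h => hx ((hv.dcl_iff).2 h)
  -- step 3
  obtain ⟨v₁, hv₁, Y₁, Y₂, hY₁, hY₂, hYs₁, hYs₂, hYc₁, hYc₂, w₂, hw₂, y₂, hy₂, ht₂, hi₂⟩ :=
    cellsQ hE hBb hbd (by omega) ((hv.symm hBm').trans hBm' hw)
      ((hv.symm hBm').trans hBm' hy) ⟨hvd, hi.1, hi.2⟩ (fs (P.Sim (b ∪ R) e)) (fs (P.Sim d y₁))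
      (fun a ha => (hv.symm hBm').trans hBm' (hkey a (hE1 a ha)))
      (fun a ha => (hv.symm hBm').trans hBm' (hkey2 a (mem_fs.1 ha)))
      (qfinF_aux hK0 (by omega) (hEE.sim_large (B := b ∪ R) (by omega) hed))
      (qfinF_aux hK0 (by omega) (hEE.sim_large (B := d) (by omega) hxd))
  -- step 4
  obtain ⟨w₃, hw₃, y₃, hy₃, ht₃, hi₃⟩ :=
    secondQ hE hBb hbd (by omega) hww hyy hi' ht₂ hi₂ Y₁ Y₂
      (fun a ha => hYs₁ w₂ hw₂ a ha) (fun a ha => hYs₂ y₂ hy₂ a ha) hYc₁ hYc₂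
  -- step 5
  have hq₂ : P.Tp B₀ [w, y] [w₂, y₂] := qfinF_drop ht₂
  have hq₃ : P.Tp B₀ [w', y'] [w₃, y₃] := qfinF_drop ht₃
  have hq : P.Tp B₀ [w₂, y₂] [w₃, y₃] := hq₂.symm.trans (ht.trans hq₃)
  have hdv : d ⊆ insert v₁ d := Finset.subset_insert _ _
  have hr : P.Tp d [w₂, y₂] [w₃, y₃] :=
    hD d (hBb.trans hbd) hdm (by omega) y₁ hsy hxd w₂ y₂ w₃ y₃
      (mem_fs.1 (hY₁ hw₂)) (mem_fs.1 (hY₂ hy₂)) (mem_fs.1 (hY₁ hw₃)) (mem_fs.1 (hY₂ hy₃))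
      (PI.ind2_mono hdv hi₂) (PI.ind2_mono hdv hi₃) hq
  -- step 6
  have hv₁' : P.Sim (b ∪ R) e v₁ := mem_fs.1 hv₁
  have hv₁d : v₁ ∉ P.Dcl (b ∪ R) := fun h => hed ((hv₁'.dcl_iff).2 h)
  have hsub : insert v₁ (b ∪ R) ⊆ insert v₁ d := Finset.insert_subset_insert _ hbRd
  have hj₂ := PI.ind2_mono hsub hi₂
  have hj₃ := PI.ind2_mono hsub hi₃
  have hc₁ : P.Tp (insert v₁ b) [w₂] [w₃] := (hYs₁ w₂ hw₂ w₃ hw₃).tp
  have hc₂ : P.Tp (insert v₁ b) [y₂] [y₃] := (hYs₂ y₂ hy₂ y₃ hy₃).tp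
  have hfin : P.Tp b [v₁, w₂, y₂] [v₁, w₃, y₃] :=
    hEE.lemMQ (by omega) hst hR hv₁' hv₁' (hX1 _ (hY₁ hw₂)) (hX1 _ (hY₂ hy₂))
      (hX1 _ (hY₁ hw₃)) (hX1 _ (hY₂ hy₃)) (by rw [← hd]; exact hr)
      ⟨hv₁d, hj₂.1, hj₂.2⟩ ⟨hv₁d, hj₃.1, hj₃.2⟩ (qfinF_out hc₁) (qfinF_out hc₂)
  have hfin' : P.Tp B₀ [v₁, w₂, y₂] [v₁, w₃, y₃] :=
    hfin.mono rfl (fun a c hac => by
      rw [mem_pr] at hac ⊢
      rcases hac with ⟨h1, h2⟩ | h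
      · exact Or.inl ⟨h1, hBb h2⟩
      · exact Or.inr h)
  have hlast : P.Tp B₀ [v, w, y] [v, w', y'] := ht₂.trans (hfin'.trans ht₃.symm)
  exact qfinF_in hlast

end MS216
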