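import Pool.Agent.H.MP_216555_lc.q.QRed

/-!
# Growth (explicit)
-/

namespace MS216

open Finset

private theorem QGrow_SQ {K : ℕ} (hK : 2 ≤ K) : SQ K ≤ 6 * K ^ 4 := by
  obtain ⟨a, rfl⟩ := Nat.exists_eq_add_of_le hK
  unfold SQ phiQ Lp
  ring_nf
  nlinarith [Nat.zero_le a, Nat.zero_le (a ^ 2), Nat.zero_le (a ^ 3), Nat.zero_le (a ^ 4)]

private theorem QGrow_log {K : ℕ} (hK : 2 ≤ K) :
    Real.log (2 * (MQ K : ℝ)) ≤ 373 * (K : ℝ) ^ 5 := by
  have hK0 : (0 : ℝ) < K := by exact_mod_cast (by omega : 0 < K)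
  have hK2 : (2 : ℝ) ≤ K := by exact_mod_cast hK
  have hM : (0 : ℝ) < (MQ K : ℝ) := by
    unfold MQ
    push_cast
    positivity
  have h1 : Real.log (MQ K : ℝ) = (62 * SQ K : ℕ) * Real.log K := by
    unfold MQ
    rw [Nat.cast_pow, Real.log_pow]
  have h2 : Real.log K ≤ K := (Real.log_le_sub_one_of_pos hK0).trans (by linarith)
  have h3 : ((62 * SQ K : ℕ) : ℝ) ≤ 372 * (K : ℝ) ^ 4 := by
    have h4 : 62 * SQ K ≤ 372 * K ^ 4 := by
      have := QGrow_SQ hK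
      omega
    exact_mod_cast h4
  have h5 : Real.log 2 ≤ 1 := (Real.log_le_sub_one_of_pos two_pos).trans (by norm_num)
  have h6 : (1 : ℝ) ≤ (K : ℝ) ^ 5 := one_le_pow₀ (by linarith)
  rw [Real.log_mul (by norm_num) hM.ne', h1]
  have h7 : ((62 * SQ K : ℕ) : ℝ) * Real.log K ≤ 372 * (K : ℝ) ^ 4 * K :=
    mul_le_mul h3 h2 (Real.log_nonneg (by linarith)) (by positivity)
  have h8 : 372 * (K : ℝ) ^ 4 * K = 372 * (K : ℝ) ^ 5 := by ring
  linarith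

/-- Growth: `log n ≥ (m/24) log log m` for good systems, `m` large.  Sketch: `SQ K ≤ 30 K^4` for
`K ≥ 2`, so `MQ K ≤ K^(1860 K^4)`, `log (2 MQ K) ≤ 1861 K^5`.  For large `m` let
`K = ⌊(log m / 1861)^(1/5)⌋`; then `2 MQ K ≤ m`, and `log K ≥ (1/6) log log m` (`m` large), and
`redQ` gives `K^(m/2) ≤ K^(m - MQ K) ≤ n`, i.e. `log n ≥ (m/2) log K ≥ (m/12) log log m`. -/
theorem growthQ : ∃ m₀ : ℕ, ∀ m, m₀ ≤ m → ∀ n, HasGood m n →
    (m : ℝ) * Real.log (Real.log m) ≤ 12 * Real.log n := by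
  obtain ⟨m₀, hm₀⟩ := exists_nat_ge (Real.exp ((12000 : ℝ) ^ 6))
  refine ⟨m₀, fun m hm n hg => ?_⟩
  have hmR : Real.exp ((12000 : ℝ) ^ 6) ≤ (m : ℝ) := hm₀.trans (by exact_mod_cast hm)
  have hm0 : (0 : ℝ) < m := (Real.exp_pos _).trans_le hmR
  obtain ⟨L, hL⟩ : ∃ L : ℝ, L = Real.log m := ⟨_, rfl⟩
  have hL0 : (12000 : ℝ) ^ 6 ≤ L := by
    rw [hL, Real.le_log_iff_exp_le hm0]
    exact hmR
  have hLpos : 0 ≤ L := le_trans (by positivity) hL0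
  obtain ⟨x, hx⟩ : ∃ x : ℝ, x = L ^ (((6 : ℕ) : ℝ)⁻¹) := ⟨_, rfl⟩
  have hx0 : 0 ≤ x := by rw [hx]; exact Real.rpow_nonneg hLpos _
  have hx6 : x ^ 6 = L := by rw [hx]; exact Real.rpow_inv_natCast_pow hLpos (by norm_num)
  have hx1 : (12000 : ℝ) ≤ x := by
    have h1 : (12000 : ℝ) ^ 6 ≤ x ^ 6 := by rw [hx6]; exact hL0
    exact le_of_pow_le_pow_left₀ (by norm_num) hx0 h1
  obtain ⟨K, hK⟩ : ∃ K : ℕ, K = ⌈x⌉₊ := ⟨_, rfl⟩
  have hK1 : x ≤ K := by rw [hK]; exact Nat.le_ceil x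
  have hK2 : (K : ℝ) ≤ 2 * x := by
    have h1 : (K : ℝ) < x + 1 := by rw [hK]; exact Nat.ceil_lt_add_one hx0
    linarith
  have hKn : 2 ≤ K := by
    have h1 : ((2 : ℕ) : ℝ) ≤ K := by push_cast; linarith
    exact_mod_cast h1
  have hK0 : (0 : ℝ) < K := by linarith
  have hM : (0 : ℝ) < (MQ K : ℝ) := by
    unfold MQ
    push_cast
    positivity
  -- the threshold
  have h1 : 2 * (MQ K : ℝ) ≤ m := by
    rw [← Real.log_le_log_iff (by positivity) hm0, ← hL]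
    refine (QGrow_log hKn).trans ?_
    have h2 : (K : ℝ) ^ 5 ≤ (2 * x) ^ 5 := pow_le_pow_left₀ hK0.le hK2 5
    have h3 : (2 * x) ^ 5 = 32 * x ^ 5 := by ring
    have h4 : 12000 * x ^ 5 ≤ x * x ^ 5 := mul_le_mul_of_nonneg_right hx1 (by positivity)
    have h5 : x * x ^ 5 = L := by rw [← hx6]; ring
    have h6 : 0 ≤ x ^ 5 := by positivity
    linarith
  have hMm : MQ K ≤ m := by
    have h2 : (MQ K : ℝ) ≤ m := by linarith
    exact_mod_cast h2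
  have h2 := redQ K hKn m hMm n hg
  have h3 : (K : ℝ) ^ m ≤ n * (K : ℝ) ^ (MQ K) := by exact_mod_cast h2
  have hn0 : (0 : ℝ) < n := by
    by_contra hcon
    have h4 : (n : ℝ) * (K : ℝ) ^ (MQ K) ≤ 0 :=
      mul_nonpos_of_nonpos_of_nonneg (not_lt.1 hcon) (by positivity)
    have h5 : (0 : ℝ) < (K : ℝ) ^ m := by positivity
    linarith
  have h4 : Real.log ((K : ℝ) ^ m) ≤ Real.log (n * (K : ℝ) ^ (MQ K)) :=
    Real.log_le_log (by positivity) h3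
  rw [Real.log_mul hn0.ne' (by positivity), Real.log_pow, Real.log_pow] at h4
  have h5 : Real.log L = 6 * Real.log x := by
    rw [← hx6, Real.log_pow]
    norm_num
  have h6 : Real.log x ≤ Real.log K := Real.log_le_log (by linarith) hK1
  have h7 : 0 ≤ Real.log x := Real.log_nonneg (by linarith)
  rw [← hL, h5]
  have h8 : (MQ K : ℝ) * Real.log K ≤ m / 2 * Real.log K :=
    mul_le_mul_of_nonneg_right (by linarith) (h7.trans h6)
  have h9 : (m : ℝ) * Real.log x ≤ m * Real.log K := mul_le_mul_of_nonneg_left h6 hm0.le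
  linarith

end MS216
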