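import Pool.Agent.H.MP_216555_lc.SGood
import Pool.Agent.H.MP_216555_lc.q.QGrow

/-!
# The main theorem (explicit)
-/

namespace MS216

open Finset

private theorem qm_ev (m₀ : ℕ) : ∃ n₀ : ℕ, ∀ n : ℕ, n₀ ≤ n → 2 ≤ n ∧
    2 * Real.log 2 ≤ Real.log (Real.log (Real.log n)) ∧
    Real.log (Real.log (Real.log n)) ≤ 25 * √(Real.log n) ∧
    (m₀ : ℝ) + 2 ≤ √(Real.log n) := by
  have t0 : Filter.Tendsto (fun n : ℕ => (n : ℝ)) Filter.atTop Filter.atTop :=
    tendsto_natCast_atTop_atTop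
  have t1 : Filter.Tendsto (fun n : ℕ => Real.log (n : ℝ)) Filter.atTop Filter.atTop :=
    Real.tendsto_log_atTop.comp t0
  have t2 := Real.tendsto_log_atTop.comp t1
  have t3 := Real.tendsto_log_atTop.comp t2
  have t4 : Filter.Tendsto (fun n : ℕ => √(Real.log (n : ℝ))) Filter.atTop Filter.atTop :=
    Real.tendsto_sqrt_atTop.comp t1
  have e1 := t3.eventually_ge_atTop (2 * Real.log 2)
  have e4 := t4.eventually_ge_atTop ((m₀ : ℝ) + 2)
  have e2 := t2.eventually_ge_atTop 1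
  have e0 : ∀ᶠ n : ℕ in Filter.atTop, 2 ≤ n := Filter.eventually_ge_atTop 2
  obtain ⟨n₀, hn₀⟩ := Filter.eventually_atTop.1 (e0.and (e1.and (e4.and e2)))
  refine ⟨n₀, fun n hn => ?_⟩
  obtain ⟨h1, h2, h3, h4⟩ := hn₀ n hn
  refine ⟨h1, h2, ?_, h3⟩
  have h4' : 1 ≤ Real.log (Real.log n) := h4
  have h5 : 0 < √(Real.log n) := by
    have : (0 : ℝ) ≤ m₀ := Nat.cast_nonneg _
    linarith
  have h6 : 0 < Real.log n := Real.sqrt_pos.1 h5
  have h7 : Real.log (Real.log (Real.log n)) ≤ Real.log (Real.log n) :=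
    (Real.log_le_sub_one_of_pos (by linarith)).trans (by linarith)
  have h8 : Real.log (Real.log n) = 2 * Real.log (√(Real.log n)) := by
    rw [Real.log_sqrt h6.le]
    ring
  have h9 := Real.log_le_sub_one_of_pos h5
  rw [h8] at h7
  rw [h8]
  linarith

/-- Sketch: suppose no matching; then `X.toPI` is a good system with parameter `m` on `n = |V|`
points.  `m ≥ 25 log n / log log log n ≥ √(log n)` for large `n`, so `m ≥ m₀`,
`log log m ≥ log log log n - log 2 ≥ (1/2) log log log n`, and `growthQ` gives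
`12 log n ≥ m log log m ≥ (25 log n / log log log n) (1/2) log log log n = 12.5 log n`. -/
theorem mainQ : ∃ n₀ : ℕ, ∀ (V : Type) [Fintype V] (m : ℕ) (X : MScheme V m),
      n₀ ≤ Fintype.card V →
      25 * Real.log (Fintype.card V) / Real.log (Real.log (Real.log (Fintype.card V))) ≤ m →
      X.Homogeneous → X.NoThreeCycle → X.HasMatching := by
  classical
  obtain ⟨m₀, hm₀⟩ := growthQ
  obtain ⟨n₀, hn₀⟩ := qm_ev m₀
  refine ⟨n₀, ?_⟩
  intro V _ m X hn hm h1 h2
  obtain ⟨hn2, e1, e2, e3⟩ := hn₀ _ hn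
  by_contra h3
  obtain ⟨L, hL⟩ : ∃ L : ℝ, L = Real.log (Fintype.card V) := ⟨_, rfl⟩
  obtain ⟨M, hM⟩ : ∃ M : ℝ, M = Real.log (Real.log L) := ⟨_, rfl⟩
  rw [← hL] at hm e1 e2 e3
  rw [← hM] at hm e1 e2
  have hm0 : (0 : ℝ) ≤ m₀ := Nat.cast_nonneg _
  have hs : 0 < √L := by linarith
  have hLp : 0 < L := Real.sqrt_pos.1 hs
  have hl2 : 0 < Real.log 2 := Real.log_pos one_lt_two
  have hMp : 0 < M := by linarith
  have hss : √L * √L = L := Real.mul_self_sqrt hLp.le
  have h4 : √L ≤ m := by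
    refine le_trans ?_ hm
    rw [le_div_iff₀ hMp]
    nlinarith
  have h5 : (m₀ : ℝ) + 2 ≤ m := e3.trans h4
  have h6 : m₀ + 2 ≤ m := by exact_mod_cast h5
  have hg := X.good (by omega) hn2 h1 h2 h3
  have h7 := hm₀ m (by omega) (Fintype.card V) ⟨V, _, _, X.toPI, hg, rfl⟩
  rw [← hL] at h7
  have hm1 : (1 : ℝ) < m := by linarith
  -- log log m
  have h8 : Real.log L / 2 ≤ Real.log m := by
    rw [← Real.log_sqrt hLp.le]
    exact Real.log_le_log hs h4
  have hL1 : 1 < Real.log L := by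
    by_contra h9
    have h10 : 0 ≤ Real.log L := Real.log_nonneg (by nlinarith)
    have := Real.log_nonpos h10 (not_lt.1 h9)
    linarith
  have h9 : M - Real.log 2 ≤ Real.log (Real.log m) := by
    rw [hM, ← Real.log_div (by linarith) two_ne_zero]
    exact Real.log_le_log (by linarith) h8
  have h10 : M / 2 ≤ Real.log (Real.log m) := by linarith
  have h11 : 25 * L ≤ m * M := by
    rwa [div_le_iff₀ hMp] at hm
  have hmp : (0 : ℝ) < m := by linarith
  nlinarith [mul_le_mul_of_nonneg_left h10 hmp.le]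

end MS216
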