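import Pool.Agent.H.MP_216555_lc.q.QPairInd

/-!
# Number of colors: monotonicity and splitting (explicit)
-/

set_option linter.unusedSectionVars false

namespace MS216

open Finset

variable {V : Type} [Fintype V] [DecidableEq V] {m : ℕ} {P : PI V m} {K S : ℕ}

private theorem QNCa_mono {B B' : Finset V} (h : B ⊆ B') {l l' : List V} (ht : P.Tp B' l l') :
    P.Tp B l l' := by
  refine ht.mono ht.len fun a b hab => ?_
  rw [mem_pr] at hab ⊢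
  rcases hab with ⟨h1, h2⟩ | h1
  · exact Or.inl ⟨h1, h h2⟩
  · exact Or.inr h1

private theorem QNCa_ne {B B' : Finset V} (h : B ⊆ B') {k : ℕ} {c c' : Fin k → V × V}
    (hd : ∀ i j, i ≠ j → ¬ P.Tp B [(c i).1, (c i).2] [(c j).1, (c j).2])
    (ht : ∀ i, P.Tp B [(c i).1, (c i).2] [(c' i).1, (c' i).2]) :
    ∀ i j, i ≠ j → ¬ P.Tp B' [(c' i).1, (c' i).2] [(c' j).1, (c' j).2] := fun i j hij hh =>
  hd i j hij (((ht i).trans (QNCa_mono h hh)).trans (ht j).symm)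

private theorem QNCa_cons {B : Finset V} {w₁ y₁ : V} {k : ℕ} (c : Fin k → V × V) (a : V × V)
    (hc : ∀ i, P.Sim B w₁ (c i).1 ∧ P.Sim B y₁ (c i).2 ∧ P.Ind2 B (c i).1 (c i).2)
    (ha : P.Sim B w₁ a.1 ∧ P.Sim B y₁ a.2 ∧ P.Ind2 B a.1 a.2)
    (hd : ∀ i j, i ≠ j → ¬ P.Tp B [(c i).1, (c i).2] [(c j).1, (c j).2])
    (hn : ∀ i, ¬ P.Tp B [a.1, a.2] [(c i).1, (c i).2]) : P.NC B w₁ y₁ (k + 1) := by
  refine ⟨Fin.cons a c, fun i => ?_, fun i j hij => ?_⟩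
  · refine Fin.cases ?_ (fun i => ?_) i
    · simpa using ha
    · simpa using hc i
  · rcases Fin.eq_zero_or_eq_succ i with rfl | ⟨i, rfl⟩
    · rcases Fin.eq_zero_or_eq_succ j with rfl | ⟨j, rfl⟩
      · exact absurd rfl hij
      · simpa using hn j
    · rcases Fin.eq_zero_or_eq_succ j with rfl | ⟨j, rfl⟩
      · intro hh
        refine hn i ?_
        simpa using hh.symm
      · have h1 : i ≠ j := fun h => hij (by rw [h])
        simpa using hd i j h1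

/-- One color always exists (as in `NCa.lean`). -/
theorem PI.EnvQ.nc_one (hE : P.EnvQ K S) {B : Finset V} (hB : B.card + 1 ≤ S) {w₀ y₀ : V}
    (hw : w₀ ∉ P.Dcl B) (hy : y₀ ∉ P.Dcl B) : P.NC B w₀ y₀ 1 := by
  have hB' : (insert w₀ B).card ≤ S := (Finset.card_insert_le _ _).trans hB
  obtain ⟨x, hx, hxd⟩ := hE.toEnv.exists_sim_notMem_dcl (B := B) (B' := insert w₀ B) (by omega)
    hB' hy
  have hm : B.card + 6 ≤ m := by have := hE.hm; omega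
  refine ⟨fun _ => (w₀, x), fun _ => ⟨PI.sim_refl hm w₀, hx, hw, hxd⟩, fun i j hij => ?_⟩
  exact absurd (Subsingleton.elim i j) hij

/-- `nc_mono` of `NCa.lean` with `liftQ`. -/
theorem nc_monoQ (hE : P.EnvQ K S) {B B' : Finset V} (hBB : B ⊆ B')
    (hB : B'.card + 2 ≤ S) {w₀ y₀ w₁ y₁ : V} (hw₁ : w₁ ∉ P.Dcl B') (hy₁ : y₁ ∉ P.Dcl B')
    (hw : P.Sim B w₀ w₁) (hy : P.Sim B y₀ y₁) {k : ℕ} (hk : P.NC B w₀ y₀ k) :
    P.NC B' w₁ y₁ k := by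
  obtain ⟨c, hc, hd⟩ := hk
  have hcard := Finset.card_le_card hBB
  have hm : B.card + 6 ≤ m := by have := hE.hm; omega
  have hex : ∀ i, ∃ q : V × V, P.Sim B' w₁ q.1 ∧ P.Sim B' y₁ q.2 ∧ P.Ind2 B' q.1 q.2 ∧
      P.Tp B [(c i).1, (c i).2] [q.1, q.2] := by
    intro i
    obtain ⟨h1, h2, h3⟩ := hc i
    obtain ⟨w', y', k1, k2, k3, k4⟩ := liftQ hE hBB hB h3 hw₁ hy₁
      ((h1.symm hm).trans hm hw) ((h2.symm hm).trans hm hy)
    exact ⟨(w', y'), k1, k2, k3, k4⟩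
  choose c' h1 h2 h3 h4 using hex
  exact ⟨c', fun i => ⟨h1 i, h2 i, h3 i⟩, QNCa_ne hBB hd h4⟩

/-- `nc_split` of `NCa.lean` with `liftQ`. -/
theorem nc_splitQ (hE : P.EnvQ K S) {B B' : Finset V} (hBB : B ⊆ B')
    (hB : B'.card + 2 ≤ S) {w₀ y₀ w₁ y₁ : V} (hw₁ : w₁ ∉ P.Dcl B') (hy₁ : y₁ ∉ P.Dcl B')
    (hw : P.Sim B w₀ w₁) (hy : P.Sim B y₀ y₁) {k : ℕ} (hk : P.NC B w₀ y₀ k)
    {w y w' y' : V} (h1 : P.Sim B' w₁ w) (h2 : P.Sim B' w₁ w') (h3 : P.Sim B' y₁ y)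
    (h4 : P.Sim B' y₁ y') (hi : P.Ind2 B' w y) (hi' : P.Ind2 B' w' y')
    (ht : P.Tp B [w, y] [w', y']) (hn : ¬ P.Tp B' [w, y] [w', y']) :
    P.NC B' w₁ y₁ (k + 1) := by
  obtain ⟨c, hc, hd⟩ := hk
  have hcard := Finset.card_le_card hBB
  have hm : B.card + 6 ≤ m := by have := hE.hm; omega
  have hex : ∀ i, ∃ q : V × V, P.Sim B' w₁ q.1 ∧ P.Sim B' y₁ q.2 ∧ P.Ind2 B' q.1 q.2 ∧
      P.Tp B [(c i).1, (c i).2] [q.1, q.2] := by
    intro i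
    obtain ⟨k1, k2, k3⟩ := hc i
    obtain ⟨w', y', g1, g2, g3, g4⟩ := liftQ hE hBB hB k3 hw₁ hy₁
      ((k1.symm hm).trans hm hw) ((k2.symm hm).trans hm hy)
    exact ⟨(w', y'), g1, g2, g3, g4⟩
  choose c' f1 f2 f3 f4 using hex
  by_cases hj : ∃ j, P.Tp B [(c j).1, (c j).2] [w, y]
  · obtain ⟨j, hj⟩ := hj
    have hex2 : ∀ i, ∃ q : V × V, (P.Sim B' w₁ q.1 ∧ P.Sim B' y₁ q.2 ∧ P.Ind2 B' q.1 q.2) ∧
        P.Tp B [(c i).1, (c i).2] [q.1, q.2] ∧ (i = j → q = (w, y)) := by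
      intro i
      by_cases hij : i = j
      · subst hij
        exact ⟨(w, y), ⟨h1, h3, hi⟩, hj, fun _ => rfl⟩
      · exact ⟨c' i, ⟨f1 i, f2 i, f3 i⟩, f4 i, fun h => absurd h hij⟩
    choose c₂ g1 g2 g3 using hex2
    refine QNCa_cons c₂ (w', y') g1 ⟨h2, h4, hi'⟩ (QNCa_ne hBB hd g2) fun i hti => ?_
    by_cases hij : i = j
    · rw [g3 i hij] at hti
      exact hn hti.symm
    · have k1 : P.Tp B [w', y'] [(c₂ i).1, (c₂ i).2] := QNCa_mono hBB hti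
      exact hd j i (fun h => hij h.symm) (((hj.trans ht).trans k1).trans (g2 i).symm)
  · refine QNCa_cons c' (w, y) (fun i => ⟨f1 i, f2 i, f3 i⟩) ⟨h1, h3, hi⟩ (QNCa_ne hBB hd f4)
      fun i hti => hj ⟨i, ?_⟩
    have k1 : P.Tp B [w, y] [(c' i).1, (c' i).2] := QNCa_mono hBB hti
    exact (f4 i).trans k1.symm

end MS216
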