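import Pool.Agent.H.MP_216555_lc.q.QNCa

/-!
# At most `K` colors between strong classes (explicit)
-/

set_option linter.unusedSectionVars false

namespace MS216

open Finset

variable {V : Type} [Fintype V] [DecidableEq V] {m : ℕ} {P : PI V m} {K S : ℕ}

private theorem QNCb_pow (hE : P.EnvQ K S) : K + 1 < K ^ S := by
  have hK := hE.hK
  have hS := hE.hS
  have h1 : K ^ 2 ≤ K ^ S := Nat.pow_le_pow_right (by omega) (by omega)
  have h2 : K ^ 3 ≤ K ^ S := Nat.pow_le_pow_right (by omega) (by omega)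
  have h3 : K + 1 < K ^ 3 := by nlinarith
  omega

/-- few points `x` have no `w` -/
private theorem QNCb_T (hE : P.EnvQ K S) {B : Finset V} (hB : B.card + 3 ≤ S) {w₀ y₀ : V}
    (hw : w₀ ∉ P.Dcl B) {a b : V} (ha : P.Sim B w₀ a) (hb : P.Sim B y₀ b)
    (hi : P.Ind2 B a b) :
    (fs (fun x => P.Sim B y₀ x ∧ ∀ w, P.Sim B w₀ w → ¬ P.Tp B [a, b] [w, x])).card * K ^ (2 * S)
      ≤ Fintype.card V := by
  have hK := hE.hK
  have hm : B.card + 6 ≤ m := by have := hE.hm; omega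
  by_contra hcon
  push Not at hcon
  have hKr : (0 : ℝ) < (K : ℝ) ^ (2 * S) := by
    have : (0 : ℝ) < K := by
      have : 0 < K := by omega
      exact_mod_cast this
    positivity
  have h1 : 1 / (K : ℝ) ^ (2 * S) * Fintype.card V ≤ (fs (P.Sim B w₀)).card := by
    have h2 := hE.sim_large (by omega : B.card ≤ S) hw
    have h3 : Fintype.card V ≤ K ^ (2 * S) * (fs (P.Sim B w₀)).card :=
      h2.trans (Nat.mul_le_mul_right _ (Nat.pow_le_pow_right (by omega) (by omega)))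
    have h4 : (Fintype.card V : ℝ) ≤ (K : ℝ) ^ (2 * S) * (fs (P.Sim B w₀)).card := by
      exact_mod_cast h3
    rw [one_div, inv_mul_le_iff₀ hKr]
    exact h4
  have h2 : 1 / (K : ℝ) ^ (2 * S) * Fintype.card V ≤
      (fs (fun x => P.Sim B y₀ x ∧ ∀ w, P.Sim B w₀ w → ¬ P.Tp B [a, b] [w, x])).card := by
    have h4 : (Fintype.card V : ℝ) ≤
        (fs (fun x => P.Sim B y₀ x ∧ ∀ w, P.Sim B w₀ w → ¬ P.Tp B [a, b] [w, x])).card *
          (K : ℝ) ^ (2 * S) := by
      exact_mod_cast hcon.le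
    rw [one_div, inv_mul_le_iff₀ hKr, mul_comm]
    exact h4
  have h3 := pairQ hE 2 (by norm_num) (by omega : B.card + 2 ≤ S) hi (fs (P.Sim B w₀))
    (fs (fun x => P.Sim B y₀ x ∧ ∀ w, P.Sim B w₀ w → ¬ P.Tp B [a, b] [w, x]))
    (fun z hz => (ha.symm hm).trans hm (mem_fs.1 hz))
    (fun z hz => (hb.symm hm).trans hm (mem_fs.1 hz).1) h1 h2
  have h4 : (prs (fs (P.Sim B w₀))
      (fs (fun x => P.Sim B y₀ x ∧ ∀ w, P.Sim B w₀ w → ¬ P.Tp B [a, b] [w, x]))
      (fun z z' => P.Tp B [a, b] [z, z'])) = ∅ := by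
    rw [Finset.eq_empty_iff_forall_notMem]
    rintro ⟨z, z'⟩ hz
    rw [mem_prs, mem_fs, mem_fs] at hz
    exact hz.2.1.2 z hz.1 hz.2.2
  rw [h4, Finset.card_empty, Nat.cast_zero] at h3
  have hV : 0 < Fintype.card V :=
    lt_of_lt_of_le (pow_pos (by omega) _) hE.huge
  have hVr : (0 : ℝ) < Fintype.card V := by exact_mod_cast hV
  have h5 : (0 : ℝ) < 1 / (K : ℝ) ^ ((2 * 2 + 3) * S) * (Fintype.card V : ℝ) ^ 2 := by
    have : (0 : ℝ) < K := by
      have : 0 < K := by omega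
      exact_mod_cast this
    positivity
  linarith

/-- One step of the path (see the sketch in `NCb.lean`): with `δ = 1/K^(2S)` (`d = 2` in `pairQ`;
`(K+1) δ n < n/K^S` as `S ≥ 8`). -/
theorem nc_stepQ (hE : P.EnvQ K S) {B : Finset V} (hB : B.card + 3 ≤ S) {w₀ y₀ : V}
    (hw : w₀ ∉ P.Dcl B) (hy : y₀ ∉ P.Dcl B) (hk : P.NC B w₀ y₀ (K + 1)) :
    ∃ x w₁ y₁, w₁ ∉ P.Dcl (insert x B) ∧ y₁ ∉ P.Dcl (insert x B) ∧
      P.NC (insert x B) w₁ y₁ (K + 1) ∧
      (K + 1) * (fs (P.Sim (insert x B) w₁)).card ≤ (fs (P.Sim B w₀)).card := by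
  classical
  have hK := hE.hK
  have hm : B.card + 6 ≤ m := by have := hE.hm; omega
  have hV : 0 < Fintype.card V :=
    lt_of_lt_of_le (pow_pos (by omega) _) hE.huge
  obtain ⟨c, hc, hd⟩ := id hk
  -- a point `x` outside all the exceptional sets
  have hx : ∃ x, P.Sim B y₀ x ∧ ∀ i, ∃ w, P.Sim B w₀ w ∧
      P.Tp B [(c i).1, (c i).2] [w, x] := by
    by_contra hcon
    push Not at hcon
    obtain ⟨T, hT⟩ : ∃ T : Fin (K + 1) → Finset V, T = fun i =>
      fs (fun x => P.Sim B y₀ x ∧ ∀ w, P.Sim B w₀ w →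
        ¬ P.Tp B [(c i).1, (c i).2] [w, x]) := ⟨_, rfl⟩
    have h1 : fs (P.Sim B y₀) ⊆ (Finset.univ : Finset (Fin (K + 1))).biUnion T := by
      intro x hx
      rw [mem_fs] at hx
      obtain ⟨i, hi⟩ := hcon x hx
      rw [Finset.mem_biUnion]
      refine ⟨i, Finset.mem_univ i, ?_⟩
      rw [hT]
      exact mem_fs.2 ⟨hx, hi⟩
    have h2 : ∀ i, (T i).card * K ^ (2 * S) ≤ Fintype.card V := by
      intro i
      rw [hT]
      exact QNCb_T hE hB hw (hc i).1 (hc i).2.1 (hc i).2.2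
    have h3 : (fs (P.Sim B y₀)).card * K ^ (2 * S) ≤ (K + 1) * Fintype.card V := by
      calc (fs (P.Sim B y₀)).card * K ^ (2 * S) ≤ (∑ i, (T i).card) * K ^ (2 * S) :=
            Nat.mul_le_mul_right _ ((Finset.card_le_card h1).trans Finset.card_biUnion_le)
        _ = ∑ i, (T i).card * K ^ (2 * S) := Finset.sum_mul _ _ _
        _ ≤ ∑ _i : Fin (K + 1), Fintype.card V := Finset.sum_le_sum fun i _ => h2 i
        _ = (K + 1) * Fintype.card V := by
            rw [Finset.sum_const, Finset.card_univ, Fintype.card_fin, smul_eq_mul]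
    have h4 := hE.sim_large (by omega : B.card ≤ S) hy
    have h5 : Fintype.card V ≤ K ^ S * (fs (P.Sim B y₀)).card :=
      h4.trans (Nat.mul_le_mul_right _ (Nat.pow_le_pow_right (by omega) (by omega)))
    have h6 : K ^ S * K ^ S * Fintype.card V ≤ K ^ S * ((K + 1) * Fintype.card V) := by
      calc K ^ S * K ^ S * Fintype.card V
          ≤ K ^ S * K ^ S * (K ^ S * (fs (P.Sim B y₀)).card) := Nat.mul_le_mul_left _ h5
        _ = K ^ S * ((fs (P.Sim B y₀)).card * K ^ (2 * S)) := by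
            rw [two_mul, pow_add]
            ring
        _ ≤ K ^ S * ((K + 1) * Fintype.card V) := Nat.mul_le_mul_left _ h3
    have hKS : 0 < K ^ S := pow_pos (by omega) _
    have h7 : K ^ S * Fintype.card V ≤ (K + 1) * Fintype.card V := by
      have h8 : K ^ S * (K ^ S * Fintype.card V) ≤ K ^ S * ((K + 1) * Fintype.card V) := by
        rw [← mul_assoc]
        exact h6
      exact Nat.le_of_mul_le_mul_left h8 hKS
    have h8 := Nat.le_of_mul_le_mul_right h7 hV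
    exact absurd (QNCb_pow hE) (not_lt.2 h8)
  obtain ⟨x, hxs, hxc⟩ := hx
  -- the sets `W i`
  obtain ⟨W, hW⟩ : ∃ W : Fin (K + 1) → Finset V, W = fun i =>
    fs (fun w => P.Sim B w₀ w ∧ P.Tp B [(c i).1, (c i).2] [w, x]) := ⟨_, rfl⟩
  have mW : ∀ i w, w ∈ W i ↔ P.Sim B w₀ w ∧ P.Tp B [(c i).1, (c i).2] [w, x] := by
    intro i w
    rw [hW]
    exact mem_fs
  have hsum : ∑ i, (W i).card ≤ (fs (P.Sim B w₀)).card := by
    rw [← Finset.card_biUnion]
    · refine Finset.card_le_card ?_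
      intro w hw
      rw [Finset.mem_biUnion] at hw
      obtain ⟨i, _, hi⟩ := hw
      exact mem_fs.2 ((mW i w).1 hi).1
    · intro i _ j _ hij
      refine Finset.disjoint_left.2 fun w hwi hwj => ?_
      exact hd i j hij (((mW i w).1 hwi).2.trans ((mW j w).1 hwj).2.symm)
  have hpig : ∃ i, (K + 1) * (W i).card ≤ (fs (P.Sim B w₀)).card := by
    by_contra hcon
    push Not at hcon
    have h1 : ∑ _i : Fin (K + 1), (fs (P.Sim B w₀)).card < ∑ i, (K + 1) * (W i).card :=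
      Finset.sum_lt_sum_of_nonempty ⟨0, Finset.mem_univ _⟩ fun i _ => hcon i
    rw [Finset.sum_const, Finset.card_univ, Fintype.card_fin, smul_eq_mul,
      ← Finset.mul_sum] at h1
    exact absurd hsum (not_le.2 (Nat.lt_of_mul_lt_mul_left h1))
  obtain ⟨i, hi⟩ := hpig
  obtain ⟨w₁, hw₁s, hw₁t⟩ := hxc i
  have hcard : (insert x B).card ≤ B.card + 1 := Finset.card_insert_le x B
  have hind : P.Ind2 B x w₁ := hE.ind2_symm (by omega) (hw₁t.ind2 hm (hc i).2.2)
  have hw₁ : w₁ ∉ P.Dcl (insert x B) := hind.2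
  obtain ⟨y₁, hy₁s, hy₁⟩ := hE.exists_sim_notMem_dcl (B := B) (B' := insert x B) (by omega)
    (by omega) hy
  refine ⟨x, w₁, y₁, hw₁, hy₁, ?_, ?_⟩
  · exact nc_monoQ hE (Finset.subset_insert x B) (by omega) hw₁ hy₁ hw₁s hy₁s hk
  · refine le_trans (Nat.mul_le_mul_left _ (Finset.card_le_card ?_)) hi
    intro z hz
    rw [mem_fs] at hz
    rw [mW]
    refine ⟨hw₁s.trans hm (hE.sim_mono (Finset.subset_insert x B) (by omega) hw₁ hz), ?_⟩
    refine hw₁t.trans ?_
    refine PI.Tp.mono hz.1 rfl ?_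
    intro a b hab
    rw [mem_pr] at hab ⊢
    simp only [List.zip_cons_cons, List.zip_nil_right, List.mem_cons, List.not_mem_nil,
      Prod.mk.injEq, Finset.mem_insert, or_false] at hab ⊢
    grind

end MS216
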