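import Pool.Agent.H.MP_216555_lc.q.QPair

/-!
# Independent pairs of a given color; lifting colors to larger bases (explicit)
-/

set_option linter.unusedSectionVars false

namespace MS216

open Finset Matrix

variable {V : Type} [Fintype V] [DecidableEq V] {m : ℕ} {P : PI V m} {K S : ℕ}

private theorem QPairInd_count (hE : P.Env K S) {B' : Finset V} (hB : B'.card + 2 ≤ S)
    (Q : Finset (V × V)) (hQ : ∀ a b, (a, b) ∈ Q → ¬ P.Ind2 B' a b) :
    Q.card ≤ 2 * K ^ S * Fintype.card V := by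
  classical
  have hK : 1 ≤ K := by have := hE.hK; omega
  have h1 : Q ⊆ (fs (fun y => y ∈ P.Dcl B')) ×ˢ (univ : Finset V) ∪
      (univ : Finset V).biUnion (fun a =>
        (fs (fun y => y ∈ P.Dcl (insert a B'))).image fun b => (a, b)) := by
    rintro ⟨a, b⟩ hab
    rw [Finset.mem_union]
    have h2 := hQ a b hab
    by_cases h3 : a ∈ P.Dcl B'
    · left
      simp [h3]
    · right
      have h4 : b ∈ P.Dcl (insert a B') := by
        by_contra h5
        exact h2 ⟨h3, h5⟩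
      simp [h4]
  have h2 : (fs (fun y => y ∈ P.Dcl B')).card ≤ K ^ S :=
    (hE.dcl_card (by omega)).trans (Nat.pow_le_pow_right hK (by omega))
  have h3 : ∀ a : V, ((fs (fun y => y ∈ P.Dcl (insert a B'))).image fun b => (a, b)).card
      ≤ K ^ S := by
    intro a
    have h4 : (insert a B').card ≤ S := (Finset.card_insert_le _ _).trans (by omega)
    exact Finset.card_image_le.trans
      ((hE.dcl_card h4).trans (Nat.pow_le_pow_right hK h4))
  calc Q.card ≤ _ := Finset.card_le_card h1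
    _ ≤ _ := Finset.card_union_le _ _
    _ ≤ K ^ S * Fintype.card V + Fintype.card V * K ^ S := by
      refine Nat.add_le_add ?_ ?_
      · rw [Finset.card_product, Finset.card_univ]
        exact Nat.mul_le_mul_right _ h2
      · refine Finset.card_biUnion_le.trans
          ((Finset.sum_le_card_nsmul _ _ _ fun a _ => h3 a).trans ?_)
        rw [Finset.card_univ, smul_eq_mul]
    _ = 2 * K ^ S * Fintype.card V := by ring

/-- `pair_ind` of `PairInd.lean`: the `≥ n²/K^(23 S)` pairs of `pairQ` against the `≤ 2 K^S n` pairs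
which are not `Ind2 B'` (`n ≥ K^(K^(60 S))` is far larger than `2 K^(24 S)`). -/
theorem pair_indQ (hE : P.EnvQ K S) (d : ℕ) (hd : d ≤ 10) {B B' : Finset V} (hBB : B ⊆ B')
    (hB : B'.card + 2 ≤ S) {y t : V} (hi : P.Ind2 B y t) (S₁ T₁ : Finset V)
    (hS : ∀ a ∈ S₁, P.Sim B y a) (hT : ∀ b ∈ T₁, P.Sim B t b)
    (h1 : 1 / (K : ℝ) ^ (d * S) * Fintype.card V ≤ S₁.card)
    (h2 : 1 / (K : ℝ) ^ (d * S) * Fintype.card V ≤ T₁.card) :
    ∃ a ∈ S₁, ∃ b ∈ T₁, P.Tp B [y, t] [a, b] ∧ P.Ind2 B' a b := by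
  have hcard := Finset.card_le_card hBB
  have h3 := pairQ hE d hd (by omega) hi S₁ T₁ hS hT h1 h2
  by_contra hcon
  push Not at hcon
  have h4 := QPairInd_count hE.toEnv hB (prs S₁ T₁ (fun a b => P.Tp B [y, t] [a, b])) (by
    intro a b hab
    rw [mem_prs] at hab
    exact hcon a hab.1 b hab.2.1 hab.2.2)
  have hK : 2 ≤ K := hE.hK
  have hK0 : (0 : ℝ) < (K : ℝ) := by exact_mod_cast (by omega : 0 < K)
  have h5 : ((prs S₁ T₁ (fun a b => P.Tp B [y, t] [a, b])).card : ℝ) ≤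
      2 * (K : ℝ) ^ S * Fintype.card V := by exact_mod_cast h4
  -- the number of points
  have h6 : 2 * K ^ (24 * S) < Fintype.card V := by
    refine lt_of_lt_of_le ?_ hE.huge
    have h7 : 24 * S + 2 ≤ K ^ (60 * S) := by
      have h8 : 60 * S < K ^ (60 * S) := Nat.lt_pow_self (by omega)
      have := hE.hS
      omega
    calc 2 * K ^ (24 * S) < K ^ 2 * K ^ (24 * S) := by
          refine Nat.mul_lt_mul_of_pos_right ?_ (by positivity)
          nlinarith
      _ = K ^ (24 * S + 2) := by ring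
      _ ≤ K ^ K ^ (60 * S) := Nat.pow_le_pow_right (by omega) h7
  have h7 : 2 * (K : ℝ) ^ (24 * S) < Fintype.card V := by exact_mod_cast h6
  have hn0 : (0 : ℝ) < Fintype.card V := lt_of_le_of_lt (by positivity) h7
  have h8 : 1 / (K : ℝ) ^ ((2 * d + 3) * S) * (Fintype.card V : ℝ) ^ 2 ≤
      2 * (K : ℝ) ^ S * Fintype.card V := h3.trans h5
  have h9 : (K : ℝ) ^ ((2 * d + 3) * S) ≤ (K : ℝ) ^ (23 * S) :=
    pow_le_pow_right₀ (by exact_mod_cast (by omega : 1 ≤ K)) (Nat.mul_le_mul_right _ (by omega))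
  rw [one_div, inv_mul_le_iff₀ (by positivity)] at h8
  have h10 : (Fintype.card V : ℝ) ≤ (K : ℝ) ^ ((2 * d + 3) * S) * (2 * (K : ℝ) ^ S) := by
    have h11 : (Fintype.card V : ℝ) * Fintype.card V ≤
        (K : ℝ) ^ ((2 * d + 3) * S) * (2 * (K : ℝ) ^ S) * Fintype.card V := by
      calc (Fintype.card V : ℝ) * Fintype.card V = (Fintype.card V : ℝ) ^ 2 := by ring
        _ ≤ _ := h8
        _ = _ := by ring
    exact le_of_mul_le_mul_right h11 hn0
  have h11 : (K : ℝ) ^ ((2 * d + 3) * S) * (2 * (K : ℝ) ^ S) ≤ 2 * (K : ℝ) ^ (24 * S) := by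
    calc (K : ℝ) ^ ((2 * d + 3) * S) * (2 * (K : ℝ) ^ S) ≤
          (K : ℝ) ^ (23 * S) * (2 * (K : ℝ) ^ S) :=
          mul_le_mul_of_nonneg_right h9 (by positivity)
      _ = 2 * (K : ℝ) ^ (24 * S) := by ring
  linarith

/-- `lift` of `PairInd.lean` (`d = 1`). -/
theorem liftQ (hE : P.EnvQ K S) {B B' : Finset V} (hBB : B ⊆ B')
    (hB : B'.card + 2 ≤ S) {w y w₁ y₁ : V} (hi : P.Ind2 B w y) (hw₁ : w₁ ∉ P.Dcl B')
    (hy₁ : y₁ ∉ P.Dcl B') (hw : P.Sim B w w₁) (hy : P.Sim B y y₁) :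
    ∃ w' y', P.Sim B' w₁ w' ∧ P.Sim B' y₁ y' ∧ P.Ind2 B' w' y' ∧
      P.Tp B [w, y] [w', y'] := by
  have hK : 2 ≤ K := hE.hK
  have hK0 : (0 : ℝ) < (K : ℝ) := by exact_mod_cast (by omega : 0 < K)
  have hcard := Finset.card_le_card hBB
  have hm := hE.hm
  have key : ∀ x : V, x ∉ P.Dcl B' →
      1 / (K : ℝ) ^ (1 * S) * Fintype.card V ≤ (fs (P.Sim B' x)).card := by
    intro x hx
    have h1 := hE.toEnv.sim_large (by omega : B'.card ≤ S) hx
    have h2 : Fintype.card V ≤ K ^ S * (fs (P.Sim B' x)).card :=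
      h1.trans (Nat.mul_le_mul_right _ (Nat.pow_le_pow_right (by omega) (by omega)))
    have h3 : (Fintype.card V : ℝ) ≤ (K : ℝ) ^ S * (fs (P.Sim B' x)).card := by
      exact_mod_cast h2
    rw [one_mul, one_div, inv_mul_le_iff₀ (by positivity)]
    exact h3
  obtain ⟨a, ha, b, hb, h1, h2⟩ := pair_indQ hE 1 (by omega) hBB hB hi (fs (P.Sim B' w₁))
    (fs (P.Sim B' y₁)) (by
      intro a ha
      rw [mem_fs] at ha
      exact hw.trans (by omega) (hE.toEnv.sim_mono hBB (by omega) hw₁ ha)) (by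
      intro b hb
      rw [mem_fs] at hb
      exact hy.trans (by omega) (hE.toEnv.sim_mono hBB (by omega) hy₁ hb)) (key _ hw₁) (key _ hy₁)
  rw [mem_fs] at ha hb
  exact ⟨a, b, ha, hb, h2, h1⟩

end MS216
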