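import Pool.Agent.H.MP_216555_lc.SimM
import Pool.Agent.H.MP_216555_lc.InvAlg
import Pool.Agent.H.MP_216555_lc.FewRows

/-!
# Rows of invariant matrices of small rank are constant on strong classes (explicit)
-/

set_option linter.unusedSectionVars false

namespace MS216

open Finset Matrix

theorem rows_constQ {V : Type} [Fintype V] [DecidableEq V] {m : ℕ} {P : PI V m} {K S : ℕ}
    (R : ℕ) (hE : P.Env K S) (hn : K ^ S * (K ^ (2 * S + 3)) ^ R + 1 ≤ Fintype.card V)
    {B : Finset V} (hB : B.card + 1 ≤ S) {E : Matrix V V ℝ} (hF : P.InvF B E)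
    (hr : E.rank ≤ R) {y z : V} (hy : y ∉ P.Dcl B) (hs : P.Sim B y z) :
    ∀ x, E y x = E z x := by
  classical
  have hK : 1 ≤ K := one_le_two.trans hE.hK
  have hm : B.card + 6 ≤ m := by
    have := hE.hm
    omega
  have hBS : B.card ≤ S := by omega
  -- few rows
  have h1 := few_rows E (K ^ (2 * B.card + 3)) R (Nat.one_le_pow _ _ hK) hr (hE.vals hB hF)
  have h2 : (univ.image fun i : V => fun j : V => E i j).card ≤ (K ^ (2 * B.card + 3)) ^ R := by
    refine le_trans (le_of_eq ?_) h1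
    rw [← Set.ncard_coe_finset]
    congr 1
    ext v
    simp
  -- the orbit of `y`
  obtain ⟨y', hy', hty⟩ := PI.not_dcl.1 hy
  have h3 := hE.large B hBS _ (PI.invEq_orbit hm) y y' hy' hty
  have h4 : (K ^ (2 * B.card + 3)) ^ R < (fs (fun x => P.Tp B [y] [x])).card := by
    by_contra hcon
    rw [not_lt] at hcon
    have h5 : K ^ B.card ≤ K ^ S := Nat.pow_le_pow_right hK hBS
    have h6 : (K ^ (2 * B.card + 3)) ^ R ≤ (K ^ (2 * S + 3)) ^ R :=
      Nat.pow_le_pow_left (Nat.pow_le_pow_right hK (by omega)) R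
    have h7 : Fintype.card V ≤ K ^ S * (K ^ (2 * S + 3)) ^ R :=
      h3.trans (Nat.mul_le_mul h5 (hcon.trans h6))
    omega
  obtain ⟨x, hx, x', hx', hne, heq⟩ := Finset.exists_ne_map_eq_of_card_lt_of_maps_to
    (lt_of_le_of_lt h2 h4) (f := fun i : V => fun j : V => E i j)
    (fun i _ => Finset.mem_coe.2 (mem_image.2 ⟨i, mem_univ _, rfl⟩))
  rw [mem_fs] at hx hx'
  have hI := hF.rowEq hm
  obtain ⟨z', hz', hez⟩ := hI.nonid hm (y := x) (y' := y) (z := x') hx.symm hne.symm
    ⟨hx.symm.trans hx', fun j => congrFun heq j⟩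
  exact (hs.2 _ hI ⟨z', hz', hez⟩).2

end MS216
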