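import Pool.Agent.H.MP_216555_lc.q.GoodExp
import Pool.Agent.H.MP_216555_lc.q.QCore

/-!
# Reduction to the core: the minimal counterexample (explicit)
-/

set_option linter.unusedSectionVars false

namespace MS216

open Finset

/-- Sketch: `S = SQ K`, `M = MQ K = K^(62 S)`.  Strong induction on `m ≥ M` (see `Red.lean`).
Let `n₁ ≤ n` be the least number with `HasGood m n₁`, `P` on `V` the system.  If for all
`|B| ≤ S` and `e, y, z` as in `Env.large` we have `|V| ≤ K^|B| |class|`, then `P.EnvQ K S` holds: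
`S + 6 ≤ m`; `huge`: `2^m ≤ n₁² 2^8` (`HasGood.exp`) and `(K^(K^(60 S)))² 2^8 ≤ 2^m` because
`K ≤ 2^K`, `2 K · K^(60 S) + 8 ≤ K^(62 S) ≤ m`; `big` follows from `huge`; `8 ≤ S` by definition.
Contradiction to `coreQ`.  Otherwise there are `B, e, y, z` with `K^|B| |class| < n₁`, `j = |B| ≤ S`,
`HasGood (m-j) |class|` (`Good.sub`), `j ≥ 1` by minimality.  If `m - j ≥ M`, by induction
`K^(m-j) ≤ |class| K^M`, so `K^m ≤ n₁ K^M`.  If `m - j < M`, `K^m ≤ K^(M+j) ≤ K^M (K^j |class|)`. -/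
theorem redQ (K : ℕ) (hK : 2 ≤ K) : ∀ m, MQ K ≤ m → ∀ n, HasGood m n →
    K ^ m ≤ n * K ^ (MQ K) := by
  classical
  have hcore : ∀ (V : Type) [Fintype V] [DecidableEq V] (m : ℕ) (P : PI V m),
      P.EnvQ K (SQ K) → False := fun V _ _ m P hE => coreQ hE
  obtain ⟨S, hS⟩ : ∃ S, S = SQ K := ⟨_, rfl⟩
  rw [← hS] at hcore
  have hS8 : 8 ≤ S := by rw [hS]; unfold SQ; omega
  have hMQ : MQ K = K ^ (62 * S) := by rw [hS]; rfl
  have hpw : ∀ a : ℕ, a < K ^ a := fun a =>
    (Nat.lt_two_pow_self (n := a)).trans_le (Nat.pow_le_pow_left hK a)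
  have hSM : S + 6 ≤ K ^ (62 * S) := by
    have h1 := hpw (62 * S)
    omega
  have hbig : K ^ (4 * S + 8) ≤ K ^ K ^ (60 * S) := by
    have h1 := hpw (60 * S)
    exact Nat.pow_le_pow_right (by omega) (by omega)
  have h62 : 2 * (K * K ^ (60 * S)) + 8 ≤ K ^ (62 * S) := by
    obtain ⟨A, hA⟩ : ∃ A, A = K ^ (60 * S) := ⟨_, rfl⟩
    have hA8 : 8 ≤ A := by
      have h1 := hpw (60 * S)
      omega
    have h2 : K ^ 3 ≤ K ^ (2 * S) := Nat.pow_le_pow_right (by omega) (by omega)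
    have h3 : K ^ (62 * S) = A * K ^ (2 * S) := by
      rw [hA, ← pow_add]
      congr 1
      omega
    have h4 : 2 * K + 1 ≤ K ^ 3 := by
      have h5 : K ^ 3 = K * (K * K) := by ring
      have h6 : 4 ≤ K * K := Nat.mul_le_mul hK hK
      have h7 : K * 4 ≤ K * (K * K) := Nat.mul_le_mul_left _ h6
      omega
    rw [h3, ← hA]
    calc 2 * (K * A) + 8 ≤ 2 * (K * A) + A := by omega
      _ = A * (2 * K + 1) := by ring
      _ ≤ A * K ^ (2 * S) := Nat.mul_le_mul_left _ (h4.trans h2)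
  obtain ⟨M, hM⟩ : ∃ M, M = MQ K := ⟨_, rfl⟩
  rw [← hM]
  have hM' : M = K ^ (62 * S) := hM.trans hMQ
  intro m
  induction m using Nat.strong_induction_on with
  | _ m ih =>
    intro hm n hn
    have hex : ∃ k, HasGood m k := ⟨n, hn⟩
    obtain ⟨n₁, h1, hmin⟩ : ∃ n₁, HasGood m n₁ ∧ ∀ k, HasGood m k → n₁ ≤ k :=
      ⟨Nat.find hex, Nat.find_spec hex, fun k hk => Nat.find_min' hex hk⟩
    refine le_trans ?_ (Nat.mul_le_mul_right _ (hmin n hn))
    have hexp := h1.exp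
    have hhuge : K ^ K ^ (60 * S) ≤ n₁ := by
      by_contra hcon
      rw [not_le] at hcon
      have h20 : ∀ A : ℕ, K ^ A ≤ 2 ^ (K * A) := by
        intro A
        rw [pow_mul]
        exact Nat.pow_le_pow_left Nat.lt_two_pow_self.le _
      have h2 : K ^ K ^ (60 * S) ≤ 2 ^ (K * K ^ (60 * S)) := h20 _
      have h3 : n₁ ^ 2 < (2 ^ (K * K ^ (60 * S))) ^ 2 :=
        Nat.pow_lt_pow_left (hcon.trans_le h2) (by norm_num)
      have h4 : n₁ ^ 2 * 2 ^ 8 < (2 ^ (K * K ^ (60 * S))) ^ 2 * 2 ^ 8 :=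
        Nat.mul_lt_mul_of_pos_right h3 (by norm_num)
      have h5 : (2 ^ (K * K ^ (60 * S))) ^ 2 * 2 ^ 8 ≤ 2 ^ m := by
        rw [← pow_mul, ← pow_add]
        refine Nat.pow_le_pow_right (by norm_num) ?_
        omega
      omega
    obtain ⟨V, _, _, P, hP, hV⟩ := h1
    have hnE : ¬ P.EnvQ K S := fun hE => hcore V m P hE
    have hlarge : ∃ B : Finset V, B.card ≤ S ∧ ∃ e, P.InvEq B e ∧ ∃ y z, z ≠ y ∧ e y z ∧
        K ^ B.card * (fs (e y)).card < n₁ := by
      by_contra hcon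
      push Not at hcon
      apply hnE
      refine ⟨⟨hK, by omega, hP.hom, fun B hB => hP.mfree B (by omega),
        fun B _ => hP.anti B, fun B hB e he y z hz hez => ?_, ?_⟩, hS8, ?_⟩
      · rw [hV]
        exact hcon B hB e he y z hz hez
      · rw [hV]
        exact hbig.trans hhuge
      · rw [hV]
        exact hhuge
    obtain ⟨B, hB, e, he, y, z, hz, hez, hlt⟩ := hlarge
    have hgood := hP.sub (B := B) (by omega) he hz hez
    obtain ⟨c, hc⟩ : ∃ c, c = (fs (e y)).card := ⟨_, rfl⟩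
    obtain ⟨j, hj⟩ : ∃ j, j = B.card := ⟨_, rfl⟩
    rw [← hc, ← hj] at hgood hlt
    rw [← hj] at hB
    have hc1 : 1 ≤ c := by
      rw [hc, Nat.one_le_iff_ne_zero, ← Nat.pos_iff_ne_zero, Finset.card_pos]
      exact ⟨z, mem_fs.2 hez⟩
    have hj1 : 1 ≤ j := by
      by_contra h0
      have h0' : j = 0 := by omega
      subst h0'
      have := hmin c hgood
      rw [pow_zero, one_mul] at hlt
      omega
    by_cases hmj : M ≤ m - j
    · have h2 := ih (m - j) (by omega) hmj c hgood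
      have h3 : m = j + (m - j) := by omega
      calc K ^ m = K ^ j * K ^ (m - j) := by rw [← pow_add, ← h3]
        _ ≤ K ^ j * (c * K ^ M) := Nat.mul_le_mul_left _ h2
        _ = (K ^ j * c) * K ^ M := by ring
        _ ≤ n₁ * K ^ M := Nat.mul_le_mul_right _ hlt.le
    · calc K ^ m ≤ K ^ (j + M) := Nat.pow_le_pow_right (by omega) (by omega)
        _ = K ^ j * 1 * K ^ M := by rw [pow_add, mul_one]
        _ ≤ (K ^ j * c) * K ^ M := by gcongr
        _ ≤ n₁ * K ^ M := Nat.mul_le_mul_right _ hlt.le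

end MS216
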