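import Pool.Agent.H.MP_216555_lc.TqrA
import Pool.Agent.H.MP_216555_lc.q.QQR

/-!
# Triples, part B: the second moment (explicit)
-/

set_option linter.unusedSectionVars false

namespace MS216

open Finset

variable {V : Type} [Fintype V] [DecidableEq V] {m : ℕ} {P : PI V m} {K S : ℕ}

open Classical in
private theorem card_fs {V : Type} [Fintype V] [DecidableEq V] (S' : Finset V) (T : V → Prop) :
    ((fs (fun w => w ∈ S' ∧ T w)).card : ℝ) = ∑ w ∈ S', (if T w then (1 : ℝ) else 0) := by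
  rw [Finset.sum_boole]
  congr 2
  ext w
  simp [fs]

open Classical in
private theorem sum_Q {V : Type} [Fintype V] [DecidableEq V] (Q : Finset (V × V))
    (T : V → V × V → Prop) (S' : Finset V) {c : ℝ}
    (h : ∀ w ∈ S', ((Q.filter (T w)).card : ℝ) = c) :
    ∑ p ∈ Q, ((fs (fun w => w ∈ S' ∧ T w p)).card : ℝ) = c * S'.card := by
  have h1 : ∀ p ∈ Q, ((fs (fun w => w ∈ S' ∧ T w p)).card : ℝ) =
      ∑ w ∈ S', (if T w p then (1 : ℝ) else 0) := fun p _ => card_fs S' fun w => T w p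
  rw [Finset.sum_congr rfl h1, Finset.sum_comm]
  have h2 : ∀ w ∈ S', ∑ p ∈ Q, (if T w p then (1 : ℝ) else 0) = c := by
    intro w hw
    rw [Finset.sum_boole]
    exact h w hw
  rw [Finset.sum_congr rfl h2, Finset.sum_const, nsmul_eq_mul, mul_comm]

open Classical in
private theorem sum_Q2 {V : Type} [Fintype V] [DecidableEq V] (Q : Finset (V × V))
    (T : V → V × V → Prop) (S' : Finset V) {G : V → V → ℝ}
    (h : ∀ w ∈ S', ∀ w' ∈ S', ((Q.filter (fun p => T w p ∧ T w' p)).card : ℝ) = G w w') :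
    ∑ p ∈ Q, ((fs (fun w => w ∈ S' ∧ T w p)).card : ℝ) ^ 2 = ∑ w ∈ S', ∑ w' ∈ S', G w w' := by
  have h1 : ∀ p ∈ Q, ((fs (fun w => w ∈ S' ∧ T w p)).card : ℝ) ^ 2 =
      ∑ w ∈ S', ∑ w' ∈ S', (if T w p ∧ T w' p then (1 : ℝ) else 0) := by
    intro p _
    rw [card_fs S' fun w => T w p, pow_two, Finset.sum_mul_sum]
    refine Finset.sum_congr rfl fun w _ => Finset.sum_congr rfl fun w' _ => ?_
    by_cases h3 : T w p <;> by_cases h4 : T w' p <;> simp [h3, h4]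
  rw [Finset.sum_congr rfl h1, Finset.sum_comm]
  refine Finset.sum_congr rfl fun w hw => ?_
  rw [Finset.sum_comm]
  refine Finset.sum_congr rfl fun w' hw' => ?_
  rw [Finset.sum_boole]
  exact h w hw w' hw'

/-- `tqr_var` of `TqrB.lean` with `qrQ` (`a = 16`: the error `2 · K^(-16 S) ≤ K^(-15 S)`). -/
theorem tqr_varQ (hE : P.EnvQ K S) {B : Finset V} (hB : B.card + 4 ≤ S) {w₀ y₀ z₀ : V}
    (hy : P.Sim B w₀ y₀) (hz : P.Sim B w₀ z₀) (hi : P.Ind3 B w₀ y₀ z₀) (S₁ : Finset V)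
    (hS₁ : ∀ a ∈ S₁, P.Sim B w₀ a) :
    ∃ τ : ℝ, (S₁.card : ℝ) / (K : ℝ) ^ S ≤ τ ∧
      ∑ p ∈ prs (fs (P.Sim B w₀)) (fs (P.Sim B w₀)) (fun y z => P.Tp B [y₀, z₀] [y, z]),
        (((fs (fun w => w ∈ S₁ ∧ P.Tp B [w₀, y₀, z₀] [w, p.1, p.2])).card : ℝ) - τ) ^ 2 ≤
        1 / (K : ℝ) ^ (15 * S) * (Fintype.card V : ℝ) ^ 4 := by
  classical
  obtain ⟨η, hη⟩ : ∃ η : ℝ, η = 1 / (K : ℝ) ^ (16 * S) := ⟨_, rfl⟩
  have hK0 : (2 : ℝ) ≤ K := by exact_mod_cast hE.hK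
  have hη0 : 0 ≤ η := by
    rw [hη]
    positivity
  have hηε : 2 * η ≤ 1 / (K : ℝ) ^ (15 * S) := by
    have h8 := hE.hS
    have h1 : (2 : ℝ) ≤ (K : ℝ) ^ S := hK0.trans (le_self_pow₀ (by linarith) (by omega))
    have h2 : (K : ℝ) ^ (16 * S) = (K : ℝ) ^ (15 * S) * (K : ℝ) ^ S := by
      rw [← pow_add]
      congr 1
      omega
    have h3 : 0 < (K : ℝ) ^ (15 * S) := by positivity
    have h4 : 0 < (K : ℝ) ^ S := by positivity
    rw [hη, h2, ← mul_div_assoc, mul_one, div_le_div_iff₀ (mul_pos h3 h4) h3, one_mul]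
    nlinarith
  have hBm : B.card + 6 ≤ m := by
    have := hE.hm
    omega
  obtain ⟨t, ht, htt⟩ := hE.tqr_t hB hy hz hi
  obtain ⟨c, hc⟩ := hE.tqr_c hB hy hz
  have hG := hE.tqr_G hB w₀ y₀ z₀
  obtain ⟨T, hT⟩ : ∃ T : V → V × V → Prop, T = fun w p => P.Tp B [w₀, y₀, z₀] [w, p.1, p.2] :=
    ⟨_, rfl⟩
  obtain ⟨G, hGd⟩ : ∃ G : V → V → ℝ, G = fun w w' => ((prs univ univ (fun y z => P.Sim B w y ∧
    P.Sim B w z ∧ P.Tp B [w₀, y₀, z₀] [w, y, z] ∧ P.Tp B [w₀, y₀, z₀] [w', y, z])).card : ℝ) :=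
    ⟨_, rfl⟩
  rw [← hGd] at hG
  obtain ⟨C, hC⟩ : ∃ C : Finset V, C = fs (P.Sim B w₀) := ⟨_, rfl⟩
  obtain ⟨Q, hQ⟩ : ∃ Q : Finset (V × V), Q = prs C C (fun y z => P.Tp B [y₀, z₀] [y, z]) :=
    ⟨_, rfl⟩
  have hCm : ∀ w, w ∈ C ↔ P.Sim B w₀ w := by
    intro w
    rw [hC, mem_fs]
  have hTQ : ∀ w y z, T w (y, z) → P.Tp B [y₀, z₀] [y, z] := by
    intro w y z h
    rw [hT] at h
    refine PI.Tp.mono h (by simp) ?_
    intro a b hab
    rw [mem_pr] at hab ⊢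
    rcases hab with h1 | h1
    · exact Or.inl h1
    · right
      simp only [List.zip_cons_cons, List.mem_cons] at h1 ⊢
      exact Or.inr h1
  have k1 : ∀ w ∈ C, ((Q.filter (T w)).card : ℝ) = c := by
    intro w hw
    rw [← hc w ((hCm w).1 hw), ← hC]
    congr 2
    ext ⟨y, z⟩
    rw [Finset.mem_filter, hQ, mem_prs, mem_prs]
    constructor
    · rintro ⟨⟨h1, h2, -⟩, h3⟩
      refine ⟨h1, h2, ?_⟩
      rw [hT] at h3
      exact h3
    · rintro ⟨h1, h2, h3⟩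
      have h4 : T w (y, z) := by
        rw [hT]
        exact h3
      exact ⟨⟨h1, h2, hTQ w y z h4⟩, h4⟩
  have k2 : ∀ w ∈ C, ∀ w' : V, ((Q.filter (fun p => T w p ∧ T w' p)).card : ℝ) = G w w' := by
    intro w hw w'
    rw [hGd]
    have hw0 := (hCm w).1 hw
    show _ = (((prs univ univ (fun y z => P.Sim B w y ∧
      P.Sim B w z ∧ P.Tp B [w₀, y₀, z₀] [w, y, z] ∧ P.Tp B [w₀, y₀, z₀] [w', y, z])).card : ℕ) : ℝ)
    congr 2
    ext ⟨y, z⟩
    rw [Finset.mem_filter, hQ, mem_prs, mem_prs, hCm, hCm]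
    constructor
    · rintro ⟨⟨h1, h2, -⟩, h3, h4⟩
      rw [hT] at h3 h4
      exact ⟨mem_univ _, mem_univ _, (hw0.symm hBm).trans hBm h1, (hw0.symm hBm).trans hBm h2,
        h3, h4⟩
    · rintro ⟨-, -, h1, h2, h3, h4⟩
      have h5 : T w (y, z) := by
        rw [hT]
        exact h3
      have h6 : T w' (y, z) := by
        rw [hT]
        exact h4
      exact ⟨⟨hw0.trans hBm h1, hw0.trans hBm h2, hTQ w y z h5⟩, h5, h6⟩
  have hSC : ∀ w ∈ S₁, w ∈ C := fun w hw => (hCm w).2 (hS₁ w hw)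
  have a1 : ∑ p ∈ Q, ((fs (fun w => w ∈ S₁ ∧ T w p)).card : ℝ) = c * S₁.card :=
    sum_Q Q T S₁ fun w hw => k1 w (hSC w hw)
  have a2 : ∑ p ∈ Q, ((fs (fun w => w ∈ S₁ ∧ T w p)).card : ℝ) ^ 2 =
      ∑ w ∈ S₁, ∑ w' ∈ S₁, G w w' := sum_Q2 Q T S₁ fun w hw w' _ => k2 w (hSC w hw) w'
  have b0 : ∀ p ∈ Q, ((fs (fun w => w ∈ C ∧ T w p)).card : ℝ) = t := by
    rintro ⟨y, z⟩ hp
    rw [hQ, mem_prs, hCm, hCm] at hp
    rw [← htt y z hp.1 hp.2.1 hp.2.2, hT]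
    congr 2
    ext w
    rw [mem_fs, mem_fs, hCm]
  have b1 : (t : ℝ) * Q.card = c * C.card := by
    rw [← sum_Q Q T C k1, Finset.sum_congr rfl b0, Finset.sum_const, nsmul_eq_mul, mul_comm]
  have b2 : (t : ℝ) ^ 2 * Q.card = ∑ w ∈ C, ∑ w' ∈ C, G w w' := by
    rw [← sum_Q2 Q T C fun w hw w' _ => k2 w hw w',
      Finset.sum_congr rfl fun p hp => by rw [b0 p hp], Finset.sum_const, nsmul_eq_mul, mul_comm]
  have hw₀ : w₀ ∈ C := (hCm w₀).2 (PI.sim_refl hBm w₀)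
  have hCpos : (0 : ℝ) < C.card := by
    exact_mod_cast Finset.card_pos.2 ⟨w₀, hw₀⟩
  have hCn : (C.card : ℝ) ≤ Fintype.card V := by
    exact_mod_cast Finset.card_le_univ C
  have hnpos : (0 : ℝ) < Fintype.card V := hCpos.trans_le hCn
  have hS1C : (S₁.card : ℝ) ≤ C.card := by
    exact_mod_cast Finset.card_le_card hSC
  have hKS : (0 : ℝ) < (K : ℝ) ^ S := by
    have : (2 : ℝ) ≤ K := by exact_mod_cast hE.hK
    positivity
  have ht' : (Fintype.card V : ℝ) ≤ (K : ℝ) ^ S * t := by exact_mod_cast ht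
  obtain ⟨n, hnd⟩ : ∃ n : ℝ, n = Fintype.card V := ⟨_, rfl⟩
  rw [← hnd] at hCn hnpos ht'
  obtain ⟨α, hα⟩ : ∃ α : ℝ, α = S₁.card / C.card := ⟨_, rfl⟩
  have hα0 : 0 ≤ α := by
    rw [hα]
    positivity
  have hα1 : α ≤ 1 := by
    rw [hα, div_le_one hCpos]
    exact hS1C
  have hαC : α * C.card = S₁.card := by
    rw [hα]
    field_simp
  have hG0 : ∀ w w', 0 ≤ G w w' := by
    intro w w'
    rw [hGd]
    positivity
  have hG1 : ∀ w w', G w w' ≤ n ^ 2 := by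
    intro w w'
    rw [hGd, hnd]
    have h1 := Finset.card_le_univ (prs (univ : Finset V) univ (fun y z => P.Sim B w y ∧
      P.Sim B w z ∧ P.Tp B [w₀, y₀, z₀] [w, y, z] ∧ P.Tp B [w₀, y₀, z₀] [w', y, z]))
    rw [Fintype.card_prod] at h1
    rw [pow_two]
    beta_reduce
    exact_mod_cast h1
  obtain ⟨p, hp⟩ := qrQ hE 16 (by norm_num) (B := B) (by omega) (F := fun w w' => G w w' / n ^ 2)
    (fun a b a' b' h => by simp only [hG a b a' b' h])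
    (fun a b => by
      rw [abs_of_nonneg (div_nonneg (hG0 a b) (by positivity)), div_le_one (by positivity)]
      exact hG1 a b) (y₀ := w₀) (t₀ := w₀) hi.1 hi.1
  rw [← hη] at hp
  have q1 := hp S₁ S₁ hS₁ hS₁
  have q2 := hp C C (fun w hw => (hCm w).1 hw) (fun w hw => (hCm w).1 hw)
  rw [← hnd] at q1 q2
  have e1 : ∀ S' : Finset V, ∑ w ∈ S', ∑ w' ∈ S', G w w' / n ^ 2 =
      (∑ w ∈ S', ∑ w' ∈ S', G w w') / n ^ 2 := by
    intro S'
    rw [Finset.sum_div]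
    exact Finset.sum_congr rfl fun w _ => (Finset.sum_div _ _ _).symm
  rw [e1] at q1 q2
  rw [← b2] at q2
  rw [← a2] at q1
  obtain ⟨X, hX⟩ : ∃ X : ℝ, X = ∑ p ∈ Q, ((fs (fun w => w ∈ S₁ ∧ T w p)).card : ℝ) ^ 2 :=
    ⟨_, rfl⟩
  rw [← hX] at q1
  refine ⟨α * t, ?_, ?_⟩
  · rw [div_le_iff₀ hKS, ← hαC]
    have h1 : (C.card : ℝ) ≤ t * (K : ℝ) ^ S := by linarith
    calc α * C.card ≤ α * (t * (K : ℝ) ^ S) := mul_le_mul_of_nonneg_left h1 hα0
      _ = α * t * (K : ℝ) ^ S := by ring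
  · rw [← hC, ← hQ, ← hnd]
    have e2 : ∑ p ∈ Q, (((fs (fun w => w ∈ S₁ ∧ P.Tp B [w₀, y₀, z₀] [w, p.1, p.2])).card : ℝ) -
        α * t) ^ 2 = X - 2 * (α * t) * (c * S₁.card) + (α * t) ^ 2 * Q.card := by
      have e3 : ∀ p ∈ Q, (((fs (fun w => w ∈ S₁ ∧ P.Tp B [w₀, y₀, z₀] [w, p.1, p.2])).card : ℝ) -
          α * t) ^ 2 = ((fs (fun w => w ∈ S₁ ∧ T w p)).card : ℝ) ^ 2 -
          2 * (α * t) * ((fs (fun w => w ∈ S₁ ∧ T w p)).card : ℝ) + (α * t) ^ 2 := by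
        intro p _
        rw [hT]
        ring
      rw [Finset.sum_congr rfl e3, Finset.sum_add_distrib, Finset.sum_sub_distrib,
        ← Finset.mul_sum, a1, hX, Finset.sum_const, nsmul_eq_mul]
      ring
    rw [e2]
    have e4 : 2 * (α * t) * (c * S₁.card) = 2 * ((α * t) ^ 2 * Q.card) := by
      rw [← hαC]
      calc 2 * (α * t) * (c * (α * C.card)) = 2 * (α ^ 2 * t) * (c * C.card) := by ring
        _ = 2 * ((α * t) ^ 2 * Q.card) := by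
            rw [← b1]
            ring
    rw [e4]
    have hn2 : 0 < n ^ 2 := by positivity
    have r1 := (abs_le.1 q1).2
    have r2 := (abs_le.1 q2).1
    have r3 : X ≤ n ^ 2 * (p * S₁.card * S₁.card + η * n ^ 2) := by
      have h1 : X / n ^ 2 ≤ p * S₁.card * S₁.card + η * n ^ 2 := by linarith
      rw [div_le_iff₀ hn2] at h1
      linarith
    have r4 : n ^ 2 * (p * C.card * C.card) ≤ (t : ℝ) ^ 2 * Q.card + n ^ 2 * (η * n ^ 2) := by
      have h1 : p * C.card * C.card ≤ (t : ℝ) ^ 2 * Q.card / n ^ 2 + η * n ^ 2 := by linarith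
      have h2 := mul_le_mul_of_nonneg_left h1 hn2.le
      have h3 : n ^ 2 * ((t : ℝ) ^ 2 * Q.card / n ^ 2 + η * n ^ 2) =
          (t : ℝ) ^ 2 * Q.card + n ^ 2 * (η * n ^ 2) := by
        field_simp
      linarith
    have r5 : n ^ 2 * (p * S₁.card * S₁.card) ≤ α ^ 2 * ((t : ℝ) ^ 2 * Q.card) +
        n ^ 2 * (η * n ^ 2) := by
      have h1 : n ^ 2 * (p * S₁.card * S₁.card) = α ^ 2 * (n ^ 2 * (p * C.card * C.card)) := by
        rw [← hαC]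
        ring
      have h2 : α ^ 2 ≤ 1 := pow_le_one₀ hα0 hα1
      have h3 : 0 ≤ n ^ 2 * (η * n ^ 2) := by positivity
      calc n ^ 2 * (p * S₁.card * S₁.card) = α ^ 2 * (n ^ 2 * (p * C.card * C.card)) := h1
        _ ≤ α ^ 2 * ((t : ℝ) ^ 2 * Q.card + n ^ 2 * (η * n ^ 2)) :=
            mul_le_mul_of_nonneg_left r4 (sq_nonneg _)
        _ = α ^ 2 * ((t : ℝ) ^ 2 * Q.card) + α ^ 2 * (n ^ 2 * (η * n ^ 2)) := by ring
        _ ≤ _ := by nlinarith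
    have r6 : X - 2 * ((α * t) ^ 2 * Q.card) + (α * t) ^ 2 * Q.card ≤ 2 * η * n ^ 4 := by
      nlinarith
    exact r6.trans (mul_le_mul_of_nonneg_right hηε (by positivity))

end MS216
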